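import Pool.Agent.Run7.h913.QG.Top

/-!
A group which preserves a divisor `L` of numerical dimension at least `n - 1`: the degrees of the
translates of an element `U` with small intersection number `U · L ^ (n - 1)`.
-/

set_option autoImplicit false
set_option linter.unusedSectionVars false

open Multiset Filter Topology

namespace Run7.h913.SH

open Pool.Agent.N110 Pool.Agent.N110.RK Run7.h528.NR Run7.h913.QG

section

variable {α 𝒜 G : Type} [Preorder 𝒜] [Group G] {t : Multiset α → ℝ} {φ : G → α → α}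
  {mul : α → α → α} {H : α} {m : ℕ → ℝ} {M : 𝒜 → ℕ → α} {c ε : ℝ}

theorem far [IsDirected 𝒜 (· ≤ ·)] [Nonempty 𝒜] {d : ℕ}
    (h : GSys (d + 2) t φ mul H m M (d + 1) c ε) :
    ∃ C : ℝ, 0 < C ∧ ∀ v : G, ∃ a : 𝒜, ∀ (U : α) (β : ℝ), 0 ≤ β →
      (∀ᶠ q in atTop, t (U ::ₘ replicate (d + 1) (M a q)) ≤ β * m q ^ (d + 1)) →
      t (φ v U ::ₘ replicate (d + 1) H) ≤
        C * (β * (1 + t (φ v H ::ₘ replicate (d + 1) H)) + t (U ::ₘ replicate (d + 1) H)) := by
  classical
  have hc := h.hc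
  have hε := h.hε
  obtain ⟨a0, ha0⟩ := h.eps
  obtain ⟨C, hC, hab⟩ := absorb h.pos h.ex h.mul_t H (ν := d + 1) (by omega) (by omega) h.hc h.hε
  obtain ⟨T, hT⟩ : ∃ T, T = t (replicate (d + 2) H) := ⟨_, rfl⟩
  have hT0 : 0 < T := by rw [hT]; exact h.pos _ (card_replicate _ _)
  obtain ⟨Q, hQ⟩ : ∃ Q : ℝ, Q = 1 + 2 / ε * (c ^ d + c ^ (2 * d + 1) * T) := ⟨_, rfl⟩
  have hQ0 : 0 < Q := by rw [hQ]; positivity
  refine ⟨C * Q, by positivity, fun v => ?_⟩
  obtain ⟨a1, ha1⟩ := h.M_f v a0
  obtain ⟨a2, h12, h02⟩ := exists_ge_ge a1 a0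
  obtain ⟨a3, ha3⟩ := h.M_f v⁻¹ a2
  refine ⟨a3, fun U β hβ hU => ?_⟩
  obtain ⟨D, hD⟩ : ∃ D, D = t (φ v H ::ₘ replicate (d + 1) H) := ⟨_, rfl⟩
  have hD0 : 0 < D := by rw [hD]; exact h.pos _ (by rw [card_cons, card_replicate])
  obtain ⟨u, hu⟩ : ∃ u, u = t (U ::ₘ replicate (d + 1) H) := ⟨_, rfl⟩
  have hu0 : 0 < u := by rw [hu]; exact h.pos _ (by rw [card_cons, card_replicate])
  obtain ⟨q, ⟨⟨hq1, hq2⟩, hq3⟩, hq4⟩ := (((hU.and (h.M_le a2)).and (h.M_le a3)).and ha0).exists
  rw [← hD, ← hu]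
  have hm := h.m_pos q
  obtain ⟨mq, hmq⟩ : ∃ mq, mq = m q := ⟨_, rfl⟩
  rw [← hmq] at hq1 hq2 hq3 hq4 hm
  obtain ⟨b, hb⟩ : ∃ b, b = M a2 q := ⟨_, rfl⟩
  rw [← hb] at hq2
  have hcm : 0 < c * mq := mul_pos hc hm
  -- lower bounds
  have e1 : d + 2 - (d + 1) = 1 := by omega
  rw [e1, replicate_one] at hq4
  have low1 : ε * mq ^ (d + 1) ≤ t (replicate (d + 1) b + {H}) := by
    have h1 := (h.mono a0 a2 h02 q).rep zero_le_one (d + 1) {H} (by rw [card_singleton]; omega)
    rw [one_pow, one_mul, ← hb] at h1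
    exact hq4.trans h1
  have invv : ∀ s : Multiset α, s.card = d + 2 → t (s.map (φ v⁻¹)) = t s := fun s hs =>
    h.inv v⁻¹ s hs
  have vinv : ∀ x, φ v⁻¹ (φ v x) = x := by
    intro x
    have := h.φ_inv v⁻¹ x
    rwa [inv_inv] at this
  have low2 : ε * mq ^ (d + 1) ≤ t (replicate (d + 1) b + {φ v H}) := by
    have h1 := (ha1 q).rep zero_le_one (d + 1) {φ v H} (by rw [card_singleton]; omega)
    have h2 := (h.mono a1 a2 h12 q).rep zero_le_one (d + 1) {φ v H}
      (by rw [card_singleton]; omega)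
    rw [one_pow, one_mul] at h1 h2
    rw [← hb] at h2
    have h3 : t (replicate (d + 1) (φ v (M a0 q)) + {φ v H}) =
        t (replicate (d + 1) (M a0 q) + {H}) := by
      have h4 := h.inv v (replicate (d + 1) (M a0 q) + {H})
        (by rw [card_add, card_replicate, card_singleton])
      rw [Multiset.map_add, map_replicate, map_singleton] at h4
      exact h4
    rw [h3] at h1
    exact hq4.trans (h1.trans h2)
  -- the first bound
  have up1 : t (replicate (d + 1) b + {φ v U}) ≤ β * mq ^ (d + 1) := by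
    have h1 := invv (replicate (d + 1) b + {φ v U})
      (by rw [card_add, card_replicate, card_singleton])
    rw [Multiset.map_add, map_replicate, map_singleton, vinv] at h1
    rw [← h1]
    have h2 := (ha3 q).rep zero_le_one (d + 1) {U} (by rw [card_singleton]; omega)
    rw [one_pow, one_mul, ← hb] at h2
    refine h2.trans ?_
    rw [add_comm, singleton_add]
    exact hq1
  have up2 : t (φ v H ::ₘ H ::ₘ replicate d b) ≤ (c * mq) ^ d * D := by
    have h1 := hq2.rep hcm.le d (φ v H ::ₘ H ::ₘ 0) (by rw [card_cons, card_cons, card_zero]; omega)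
    have e2 : ∀ x : α, replicate d x + φ v H ::ₘ H ::ₘ 0 = φ v H ::ₘ H ::ₘ replicate d x := by
      intro x
      rw [add_cons, add_cons, add_zero]
    rw [e2, e2, ← replicate_succ, ← hD] at h1
    exact h1
  have up3 : t (b ::ₘ H ::ₘ replicate d b) ≤ (c * mq) ^ (d + 1) * T := by
    have h1 := hq2.rep hcm.le (d + 1) (H ::ₘ 0) (by rw [card_cons, card_zero]; omega)
    have e2 : replicate (d + 1) b + H ::ₘ 0 = b ::ₘ H ::ₘ replicate d b := by
      rw [add_cons, add_zero, replicate_succ, cons_swap]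
    have e3 : replicate (d + 1) H + H ::ₘ 0 = replicate (d + 2) H := by
      rw [add_cons, add_zero, ← replicate_succ]
    rw [e2, e3, ← hT] at h1
    exact h1
  have up4 : t (φ v H ::ₘ φ v U ::ₘ replicate d b) ≤ (c * mq) ^ d * u := by
    have h1 := invv (φ v H ::ₘ φ v U ::ₘ replicate d b)
      (by rw [card_cons, card_cons, card_replicate])
    rw [map_cons, map_cons, map_replicate, vinv, vinv] at h1
    rw [← h1]
    have e2 : ∀ x : α, H ::ₘ U ::ₘ replicate d x = replicate d x + H ::ₘ U ::ₘ 0 := by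
      intro x
      rw [add_cons, add_cons, add_zero]
    have h2 := (ha3 q).rep zero_le_one d (H ::ₘ U ::ₘ 0)
      (by rw [card_cons, card_cons, card_zero]; omega)
    rw [one_pow, one_mul, ← hb] at h2
    have h3 := hq3.rep hcm.le d (H ::ₘ U ::ₘ 0) (by rw [card_cons, card_cons, card_zero]; omega)
    rw [e2]
    refine h2.trans (h3.trans (le_of_eq ?_))
    rw [← e2, cons_swap, ← replicate_succ, ← hu]
  -- the exchange inequality
  have ex := h.ex (replicate d b) (by rw [card_replicate]) b (φ v H) (φ v U) H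
  have e3 : b ::ₘ φ v H ::ₘ replicate d b = replicate (d + 1) b + {φ v H} := by
    rw [add_comm, singleton_add, replicate_succ, cons_swap]
  have e4 : b ::ₘ φ v U ::ₘ replicate d b = replicate (d + 1) b + {φ v U} := by
    rw [add_comm, singleton_add, replicate_succ, cons_swap]
  rw [e3, e4] at ex
  obtain ⟨Z, hZ⟩ : ∃ Z, Z = t (φ v U ::ₘ H ::ₘ replicate d b) := ⟨_, rfl⟩
  have hZ0 : 0 < Z := by rw [hZ]; exact h.pos _ (by rw [card_cons, card_cons, card_replicate])
  rw [← hZ] at ex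
  have p1 : 0 < t (replicate (d + 1) b + {φ v U}) := h.pos _
    (by rw [card_add, card_replicate, card_singleton])
  have p2 : 0 < t (φ v H ::ₘ H ::ₘ replicate d b) := h.pos _
    (by rw [card_cons, card_cons, card_replicate])
  have p3 : 0 < t (b ::ₘ H ::ₘ replicate d b) := h.pos _
    (by rw [card_cons, card_cons, card_replicate])
  have p4 : 0 < t (φ v H ::ₘ φ v U ::ₘ replicate d b) := h.pos _
    (by rw [card_cons, card_cons, card_replicate])
  have k1 : ε * mq ^ (d + 1) * Z ≤ 2 * (β * mq ^ (d + 1) * ((c * mq) ^ d * D) +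
      (c * mq) ^ (d + 1) * T * ((c * mq) ^ d * u)) := by
    refine (mul_le_mul_of_nonneg_right low2 hZ0.le).trans (ex.trans ?_)
    have := mul_le_mul up1 up2 p2.le (by positivity)
    have := mul_le_mul up3 up4 p4.le (by positivity)
    linarith
  have k2 : Z ≤ 2 / ε * (β * c ^ d * D + c ^ (2 * d + 1) * T * u) * mq ^ d := by
    have e5 : 2 * (β * mq ^ (d + 1) * ((c * mq) ^ d * D) +
        (c * mq) ^ (d + 1) * T * ((c * mq) ^ d * u)) =
        (ε * mq ^ (d + 1)) * (2 / ε * (β * c ^ d * D + c ^ (2 * d + 1) * T * u) * mq ^ d) := by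
      have e6 : c ^ (2 * d + 1) = c ^ d * c ^ (d + 1) := by
        rw [← pow_add]
        congr 1
        omega
      rw [e6, mul_pow, mul_pow]
      field_simp
    rw [e5] at k1
    exact le_of_mul_le_mul_left k1 (by positivity)
  -- the conclusion
  obtain ⟨S, hS⟩ : ∃ S : ℝ, S = β + 2 / ε * (β * c ^ d * D + c ^ (2 * d + 1) * T * u) := ⟨_, rfl⟩
  have hS1 : β ≤ S := by
    rw [hS]
    have : 0 ≤ 2 / ε * (β * c ^ d * D + c ^ (2 * d + 1) * T * u) := by positivity
    linarith
  have hS2 : 2 / ε * (β * c ^ d * D + c ^ (2 * d + 1) * T * u) ≤ S := by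
    rw [hS]
    linarith
  have hSQ : S ≤ Q * (β * (1 + D) + u) := by
    rw [hS, hQ]
    have g1 : 0 ≤ 2 / ε * c ^ d := by positivity
    have g2 : 0 ≤ 2 / ε * (c ^ (2 * d + 1) * T) := by positivity
    have g3 : 0 ≤ β * D := by positivity
    have g4 : 0 ≤ 2 / ε * c ^ d * β := by positivity
    have g5 : 0 ≤ 2 / ε * c ^ d * u := by positivity
    have g6 : 0 ≤ 2 / ε * (c ^ (2 * d + 1) * T) * (β * (1 + D)) := by positivity
    have e7 : (1 + 2 / ε * (c ^ d + c ^ (2 * d + 1) * T)) * (β * (1 + D) + u) =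
        β + 2 / ε * (β * c ^ d * D + c ^ (2 * d + 1) * T * u) + β * D + u +
        2 / ε * c ^ d * β + 2 / ε * c ^ d * u +
        2 / ε * (c ^ (2 * d + 1) * T) * (β * (1 + D)) := by ring
    rw [e7]
    linarith
  have key := hab b (φ v U) mq S hm hq2 (by rw [e1, replicate_one]; exact low1) (hβ.trans hS1) ?_
  · have e8 : d + 2 - 1 = d + 1 := by omega
    rw [e8] at key
    refine key.trans ?_
    rw [mul_assoc]
    exact mul_le_mul_of_nonneg_left hSQ hC.le
  · intro j h1 h2
    have hj : j = d ∨ j = d + 1 := by omega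
    rcases hj with rfl | rfl
    · have e9 : j + 2 - 1 - j = 1 := by omega
      rw [e9, replicate_one]
      have e10 : replicate j b + ({H} + {φ v U}) = φ v U ::ₘ H ::ₘ replicate j b := by
        rw [add_comm ({H} : Multiset α), singleton_add, add_cons, add_comm, singleton_add]
      rw [e10, ← hZ]
      exact k2.trans (mul_le_mul_of_nonneg_right hS2 (by positivity))
    · have e9 : d + 2 - 1 - (d + 1) = 0 := by omega
      rw [e9, replicate_zero, zero_add]
      exact up1.trans (mul_le_mul_of_nonneg_right hS1 (by positivity))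

end

end Run7.h913.SH
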