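import Pool.Agent.N110.RK.Stat
import Pool.Agent.N110.PA.NDefs
import Pool.Agent.N110.DV.Defs

/-!
Definitions: classes which are fixed by a birational self-map, movable divisors, and groups of
birational self-maps which look like the group of translations of an elliptic fibration whose base
has many divisor classes.
-/

set_option autoImplicit false

open FF Pool.Agent.W602.GT Pool.Agent.Y172 Pool.Agent.R887 Pool.Agent.N110

namespace Run7.h913.SH

section

variable {K : Type} [Field K] [Algebra ℂ K] {N : ℕ}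

/-- The class of the divisor `U` on `X` is in the closed movable cone: for all `q ≥ 1` some multiple
`m (q U + H)`, `H` being the hyperplane section `y i = 0`, has no fixed component, that is, for every
prime divisor `P₀` of `X` some section `g` of it does not vanish along `P₀`. For instance a nef
divisor has this property. -/
def MovD (y : Fin (N + 1) → K) (U : Place ℂ K → ℚ) : Prop :=
  ∀ i, y i ≠ 0 → ∀ q : ℕ, 1 ≤ q → ∃ m : ℕ, 1 ≤ m ∧ ∀ P₀ : Place ℂ K, IsPrimeDivisor y P₀ →
    ∃ g : K, g ≠ 0 ∧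
      (∀ P l, IsPrimeDivisor y P → Centred y l P →
        -(m * q * U P) - m * P.ord (y i / y l) ≤ P.ord g) ∧
      ∀ l, Centred y l P₀ → (P₀.ord g : ℚ) = -(m * q * U P₀) - m * P₀.ord (y i / y l)

/-- The class of the divisor `f^* U` is `v`, where `f` is the birational self-map given by the
automorphism `φ` of the function field and the `c P` are the classes of the prime divisors. The
coefficient of `f^* U` along the prime divisor `Q` is the coefficient of `U` along the image `P` of
`Q`. -/
def PullClass (φ : K ≃ₐ[ℂ] K) (y : Fin (N + 1) → K) {ρ : ℕ} (c : Place ℂ K → Fin ρ → ℤ)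
    (U : Place ℂ K → ℚ) (v : Fin ρ → ℚ) : Prop :=
  ∀ V : Place ℂ K → ℚ, (∀ P Q : Place ℂ K, IsPrimeDivisor y Q → (∀ f, P.ord f = Q.ord (φ f)) →
    V Q = U P) → cls y (fun P i => (c P i : ℚ)) V = v

/-- The birational self-map given by `φ` fixes the class of the divisor `U`. -/
def FixesClass (φ : K ≃ₐ[ℂ] K) (y : Fin (N + 1) → K) {ρ : ℕ} (c : Place ℂ K → Fin ρ → ℤ)
    (U : Place ℂ K → ℚ) : Prop :=
  PullClass φ y c U (cls y (fun P i => (c P i : ℚ)) U)

/-- The value at `z` of the quadratic form given by the classes of the divisors `B i j`. -/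
noncomputable def quadCls (y : Fin (N + 1) → K) {ρ : ℕ} (c : Place ℂ K → Fin ρ → ℤ) {r : ℕ}
    (B : Fin r → Fin r → Place ℂ K → ℚ) (z : Fin r → ℤ) : Fin ρ → ℚ :=
  ∑ i, ∑ j, ((z i : ℚ) * z j) • cls y (fun P i => (c P i : ℚ)) (B i j)

/-- Let the group `G` act on `X` by birational self-maps, and let `Φ` be a homomorphism from `G` to
`ℤ ^ r`. The classes of the divisors `g^* U` are polynomials of degree two in `Φ g`, like the
Néron-Tate height:
`g^* U = U + ∑ i, Φ g i • A i + ∑ i, ∑ j, (Φ g i * Φ g j) • B i j` up to numerical equivalence. The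
classes of the divisors `B i j` are fixed by `G`; if `U` is effective then the value of the quadratic
form `B` at every `z` is in the pseudo-effective cone, and if `U` is the hyperplane section `y i = 0`
then this value is not zero for `z ≠ 0`. -/
def QuadraticIn (y : Fin (N + 1) → K) {ρ : ℕ} (c : Place ℂ K → Fin ρ → ℤ) {G : Type} [Group G]
    (φ : G → (K ≃ₐ[ℂ] K)) {r : ℕ} (Φ : G →* Multiplicative (Fin r → ℤ)) (U : Place ℂ K → ℚ) :
    Prop :=
  ∃ (A : Fin r → Place ℂ K → ℚ) (B : Fin r → Fin r → Place ℂ K → ℚ),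
    (∀ i, {P | IsPrimeDivisor y P ∧ A i P ≠ 0}.Finite) ∧
    (∀ i j, {P | IsPrimeDivisor y P ∧ B i j P ≠ 0}.Finite ∧
      cls y (fun P i => (c P i : ℚ)) (B i j) = cls y (fun P i => (c P i : ℚ)) (B j i) ∧
      ∀ g : G, FixesClass (φ g) y c (B i j)) ∧
    (∀ g : G, PullClass (φ g) y c U (cls y (fun P i => (c P i : ℚ)) U +
      ∑ i, (Multiplicative.toAdd (Φ g) i : ℚ) • cls y (fun P i => (c P i : ℚ)) (A i) +
      quadCls y c B (Multiplicative.toAdd (Φ g)))) ∧
    (Effective y U → ∀ z : Fin r → ℤ, (fun l => ((quadCls y c B z l : ℚ) : ℝ)) ∈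
      closure {v : Fin ρ → ℝ | ∃ D, Effective y D ∧
        ∀ l, v l = cls y (fun P i => (c P i : ℚ)) D l}) ∧
    ∀ i, y i ≠ 0 → (∀ P l, IsPrimeDivisor y P → Centred y l P → U P = P.ord (y i / y l)) →
      ∀ z : Fin r → ℤ, quadCls y c B z = 0 → z = 0

/-- Let `G` be a group of isomorphisms in codimension one of `X`, given by automorphisms of the
function field, and let the `c P` in `ℤ ^ ρ` be the classes of the prime divisors `P` of `X`. The
group `G` is of Mordell-Weil type over the set `S` of divisors if there are a normal subgroup `G₀` of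
finite index in `G` and a homomorphism `Φ` from `G₀` onto `ℤ ^ r` with the following properties:
(1) the elements of the kernel of `Φ` act trivially on the classes of the divisors;
(2) the degree `D = g^* H · H ^ (n - 1)` is comparable to the square of the norm of `Φ g`, up to a
constant factor `C` which does not depend on `g`, for all `g` in `G₀`, and the classes of the
divisors `g^* U` are polynomials of degree two in `Φ g` for every divisor `U`;
(3) every `g` in `G₀` fixes the classes of the divisors in `S`; on the other hand, an element `g` of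
`G₀` with `Φ g ≠ 0` does not fix the class of any big divisor, that is, of Iitaka dimension `n`;
(4) if there are `k` divisors whose classes are linearly independent and fixed by all `g` in `G₀`,
then `r = 0` or `r + 1 + k ≤ ρ`. -/
def MordellWeilOver (y : Fin (N + 1) → K) (n : ℕ) {ρ : ℕ} (c : Place ℂ K → Fin ρ → ℤ)
    (S : Set (Place ℂ K → ℚ)) (G : Subgroup (K ≃ₐ[ℂ] K)) : Prop :=
  ∃ (G₀ : Subgroup G) (r : ℕ) (Φ : G₀ →* Multiplicative (Fin r → ℤ)) (C : ℝ),
    G₀.Normal ∧ G₀.FiniteIndex ∧ Function.Surjective Φ ∧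
    (∀ g : G₀, Φ g = 1 → ∀ P Q : Place ℂ K, IsPrimeDivisor y Q →
      (∀ f : K, P.ord f = Q.ord (((g : G) : K ≃ₐ[ℂ] K) f)) → c P = c Q) ∧
    (∀ g : G₀, ∃ D : ℕ, mixedDegree ((g : G) : K ≃ₐ[ℂ] K) y n 1 = D ∧
      (∑ i, |((Multiplicative.toAdd (Φ g) i : ℤ) : ℝ)|) ^ 2 ≤ C * D ∧
      D ≤ C * ((∑ i, |((Multiplicative.toAdd (Φ g) i : ℤ) : ℝ)|) ^ 2 + 1)) ∧
    (∀ U : Place ℂ K → ℚ, {P | IsPrimeDivisor y P ∧ U P ≠ 0}.Finite →
      QuadraticIn y c (fun g : G₀ => ((g : G) : K ≃ₐ[ℂ] K)) Φ U) ∧
    (∀ U ∈ S, ∀ g : G₀, FixesClass ((g : G) : K ≃ₐ[ℂ] K) y c U) ∧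
    (∀ (g : G₀) (D : Place ℂ K → ℚ), {P | IsPrimeDivisor y P ∧ D P ≠ 0}.Finite →
      FixesClass ((g : G) : K ≃ₐ[ℂ] K) y c D → DV.IitakaGe y D n → Φ g = 1) ∧
    ∀ (k : ℕ) (U : Fin k → Place ℂ K → ℚ),
      (∀ j, {P | IsPrimeDivisor y P ∧ U j P ≠ 0}.Finite) →
      (∀ j, ∀ g : G₀, FixesClass ((g : G) : K ≃ₐ[ℂ] K) y c (U j)) →
      LinearIndependent ℚ (fun j => cls y (fun P i => (c P i : ℚ)) (U j)) →
      r = 0 ∨ r + 1 + k ≤ ρ

/-- The movable divisors `U` such that `L + U` is not big: its numerical dimension is less than `n`.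
If `L` is the pull back of an ample divisor on the base of an elliptic fibration then these are the
movable divisors which are numerically trivial on the fibres. -/
def MovFace (y : Fin (N + 1) → K) (n : ℕ) (L : Place ℂ K → ℚ) : Set (Place ℂ K → ℚ) :=
  {U | {P | IsPrimeDivisor y P ∧ U P ≠ 0}.Finite ∧ MovD y U ∧ DV.NuLt y n (L + U) n}

/-- The nef divisors `U` such that `L + U` is not big. -/
def NefFace (y : Fin (N + 1) → K) (n : ℕ) (L : Place ℂ K → ℚ) : Set (Place ℂ K → ℚ) :=
  {U | {P | IsPrimeDivisor y P ∧ U P ≠ 0}.Finite ∧ DV.NefD y n U ∧ DV.NuLt y n (L + U) n}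

/-- The numerical dimension and the Iitaka dimension of `L` are at most `n - 2`, and they are equal if
the Iitaka dimension is at least `n - 2`. -/
def CodimTwoD (y : Fin (N + 1) → K) (n : ℕ) (L : Place ℂ K → ℚ) : Prop :=
  DV.NuLt y n L (n - 1) ∧ ¬ DV.IitakaGe y L (n - 1) ∧
    (DV.IitakaGe y L (n - 2) → DV.AbundantD y n L)

end

end Run7.h913.SH
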