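import Pool.Agent.Run7.h913.SH.Cl
import Pool.Agent.Run7.h913.SH.Defs
import Pool.Agent.Run7.h913.ST.Fin

/-!
Lemmas on divisors and the classes of their pull backs.
-/

set_option autoImplicit false
set_option linter.overlappingInstances false
set_option linter.unusedSectionVars false

open FF Module MvPolynomial Pool.Agent.W602.GT Pool.Agent.W603.LV
open Pool.Agent.Y172 Pool.Agent.Y191 Pool.Agent.R887
open Pool.Agent.N110 Pool.Agent.N110.RK Pool.Agent.N110.DV Run7.h528.NR
open scoped ENNReal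

namespace Run7.h913.SH

open Run7.h913.ST Pool.Agent.N110.PA Pool.Agent.N110.NV Pool.Agent.N492.PA

section

variable {K : Type} [Field K] [Algebra ℂ K] {N n : ℕ} {y : Fin (N + 1) → K}

/-- an integral multiple of a divisor -/
theorem clear_denom {U : Place ℂ K → ℚ} (hU : Fin0 y U) : ∃ (a : ℕ) (D : QQ y →₀ ℤ), 1 ≤ a ∧
    ∀ P, IsPrimeDivisor y P → (a : ℚ) * U P = dv D P := by
  classical
  obtain ⟨S, hS⟩ : ∃ S : Finset (Place ℂ K), S = hU.toFinset := ⟨_, rfl⟩
  obtain ⟨a, ha⟩ : ∃ a : ℕ, a = ∏ P ∈ S, (U P).den := ⟨_, rfl⟩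
  have hfin : (Function.support fun P : QQ y => ((a : ℚ) * U P.1).num).Finite := by
    refine (hU.preimage (Subtype.val_injective (p := fun P => IsPrimeDivisor y P)).injOn).subset ?_
    intro P hP
    refine ⟨P.2, fun h0 => hP ?_⟩
    change ((a : ℚ) * U P.1).num = 0
    rw [show U P.1 = 0 from h0, mul_zero]
    rfl
  refine ⟨a, Finsupp.ofSupportFinite _ hfin, ?_, fun P hP => ?_⟩
  · rw [ha]
    exact Nat.one_le_iff_ne_zero.2 (Finset.prod_ne_zero_iff.2 fun P _ => (U P).den_ne_zero)
  · rw [dv_apply _ hP, Finsupp.ofSupportFinite_coe]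
    have h1 : ((a : ℚ) * U P).den = 1 := by
      by_cases h0 : U P = 0
      · rw [h0, mul_zero]
        rfl
      · have hPS : P ∈ S := by
          rw [hS, Set.Finite.mem_toFinset]
          exact ⟨hP, h0⟩
        obtain ⟨b, hb⟩ : (U P).den ∣ a := by
          rw [ha]
          exact Finset.dvd_prod_of_mem _ hPS
        have h2 : (a : ℚ) * U P = ((b * (U P).num : ℤ) : ℚ) := by
          rw [hb]
          conv_lhs => rw [← Rat.num_div_den (U P)]
          rw [Rat.num_div_den]
          have h3 : ((U P).den : ℚ) ≠ 0 := by exact_mod_cast (U P).den_ne_zero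
          have h4 : U P * (U P).den = (U P).num := Rat.mul_den_eq_num _
          push_cast
          rw [← h4]
          ring
        rw [h2]
        exact Rat.den_intCast _
    have h2 := Rat.num_div_den ((a : ℚ) * U P)
    rw [h1, Nat.cast_one, div_one] at h2
    exact h2.symm

theorem pull_iff {φ : K ≃ₐ[ℂ] K} {ρ : ℕ} {c : Place ℂ K → Fin ρ → ℤ} {U : Place ℂ K → ℚ}
    {v : Fin ρ → ℚ} : PullClass φ y c U v ↔ cls y (cQ c) (fun Q => U (comap φ Q)) = v := by
  constructor
  · intro h
    exact h _ fun P Q _ hPQ => by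
      rw [show comap φ Q = P from Place.ext (funext fun f => (hPQ f).symm)]
  · intro h V hV
    rw [← h]
    exact cls_congr fun Q hQ => hV _ Q hQ fun f => rfl

theorem fixes_iff {φ : K ≃ₐ[ℂ] K} {ρ : ℕ} {c : Place ℂ K → Fin ρ → ℤ} {U : Place ℂ K → ℚ} :
    FixesClass φ y c U ↔ cls y (cQ c) (fun Q => U (comap φ Q)) = cls y (cQ c) U := pull_iff

/-- pull backs of effective divisors are effective -/
theorem eff_pull {φ : K ≃ₐ[ℂ] K} (hφ : PseudoAut φ y) {U : Place ℂ K → ℚ} (hU : Effective y U) :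
    Effective y (fun Q => U (comap φ Q)) :=
  ⟨fun Q hQ => hU.1 _ ((hφ _ Q fun _ => rfl).2 hQ), fin_comap hφ hU.2⟩

end

end Run7.h913.SH
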