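import Pool.Agent.Run7.h913.SH.Deg
import Pool.Agent.Run7.h913.ST.Geo

/-!
The classes of the pull backs of a movable divisor `U` are bounded, if `L + U` is not big.
-/

set_option autoImplicit false
set_option linter.overlappingInstances false
set_option linter.unusedSectionVars false

open FF Pool.Agent.W602.GT Pool.Agent.Y172 Pool.Agent.R887

namespace Run7.h913.SH

open Pool.Agent.N110 Pool.Agent.N110.PA Pool.Agent.N110.NV Pool.Agent.N492.PA Run7.h528.NR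
open Topology

section

variable {K : Type} [Field K] [Algebra ℂ K] {N : ℕ} {y : Fin (N + 1) → K}

theorem comap_inj (φ : K ≃ₐ[ℂ] K) : Function.Injective (comap φ) := by
  intro Q Q' hQQ
  refine Place.ext (funext fun g => ?_)
  have h2 := congrArg (fun P : Place ℂ K => P.ord (φ.symm g)) hQQ
  simp only [comap_ord, AlgEquiv.apply_symm_apply] at h2
  exact h2

theorem fin_comap {φ : K ≃ₐ[ℂ] K} (hφ : PseudoAut φ y) {U : Place ℂ K → ℚ}
    (hU : {P | IsPrimeDivisor y P ∧ U P ≠ 0}.Finite) :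
    {P | IsPrimeDivisor y P ∧ U (comap φ P) ≠ 0}.Finite := by
  refine (hU.preimage (comap_inj φ).injOn).subset ?_
  rintro Q ⟨hQ, h0⟩
  exact ⟨(hφ (comap φ Q) Q fun g => rfl).2 hQ, h0⟩

variable {ρ : ℕ} {c : Place ℂ K → Fin ρ → ℤ} {G : Type} [Group G] {φ : G → (K ≃ₐ[ℂ] K)}

theorem psef_pull (hy : NormalModel y) (hc : NumClasses y c) {i : Fin (N + 1)} (hi : y i ≠ 0)
    {Hy : Place ℂ K → ℚ} (hHe : Effective y Hy)
    (hHP : ∀ P l, IsPrimeDivisor y P → Centred y l P → Hy P = P.ord (y i / y l))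
    {ψ : K ≃ₐ[ℂ] K} (hψ : PseudoAut ψ y) {U : Place ℂ K → ℚ}
    (hU : {P | IsPrimeDivisor y P ∧ U P ≠ 0}.Finite) (hUm : MovD y U) :
    toR (cls y (cQ c) (fun Q => U (comap ψ Q))) ∈ closure (effSet y (cQ c)) := by
  classical
  obtain ⟨x, hx⟩ : ∃ x, x = toR (cls y (cQ c) (fun Q => U (comap ψ Q))) := ⟨_, rfl⟩
  obtain ⟨η, hη⟩ : ∃ η, η = toR (cls y (cQ c) (fun Q => Hy (comap ψ Q))) := ⟨_, rfl⟩
  rw [← hx]
  by_cases hex : ∃ P₁, IsPrimeDivisor y P₁
  swap
  · have h1 : cls y (cQ c) (fun Q => U (comap ψ Q)) = 0 := by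
      rw [← cls_zero (y := y) (c := cQ c)]
      exact cls_congr fun P hP => absurd ⟨P, hP⟩ hex
    have h2 : (0 : Fin ρ → ℝ) ∈ closure (effSet y (cQ c)) := by
      refine subset_closure ⟨fun _ => 0, ⟨fun _ _ => le_rfl, ?_⟩, fun j => ?_⟩
      · refine Set.finite_empty.subset ?_
        rintro P ⟨-, h⟩
        exact absurd rfl h
      · rw [cls_zero]
        simp
    have h3 : x = 0 := by
      rw [hx, h1]
      funext j
      simp [toR]
    rw [h3]
    exact h2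
  obtain ⟨P₁, hP₁⟩ := hex
  have hU' := fin_comap hψ hU
  have hH' := fin_comap hψ hHe.2
  have key : ∀ q : ℕ, x + (1 / ((q : ℝ) + 1)) • η ∈ closure (effSet y (cQ c)) := by
    intro q
    obtain ⟨k, hk, hmov⟩ := hUm i hi (q + 1) (Nat.le_add_left 1 q)
    obtain ⟨σ, hσ, hσs, -⟩ := hmov P₁ hP₁
    have hψσ : ψ σ ≠ 0 := by rwa [Ne, map_eq_zero]
    have hkR : (0 : ℝ) < k := by exact_mod_cast hk
    obtain ⟨D, hD⟩ : ∃ D : Place ℂ K → ℚ, D = fun Q => ((Q.ord (ψ σ) : ℤ) : ℚ) +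
        (((k * (q + 1) : ℕ) : ℚ) * U (comap ψ Q) + (k : ℚ) * Hy (comap ψ Q)) := ⟨_, rfl⟩
    have hf1 : Fin0 y (fun Q => ((Q.ord (ψ σ) : ℤ) : ℚ)) := by
      refine (finite_ord hy hψσ).subset ?_
      rintro P ⟨hP, h1⟩
      refine ⟨hP, fun h2 => h1 ?_⟩
      show ((P.ord (ψ σ) : ℤ) : ℚ) = 0
      rw [h2, Int.cast_zero]
    have hf2 : Fin0 y (fun Q => ((k * (q + 1) : ℕ) : ℚ) * U (comap ψ Q)) :=
      Fin0.smul (y := y) hU' _
    have hf3 : Fin0 y (fun Q => (k : ℚ) * Hy (comap ψ Q)) := Fin0.smul (y := y) hH' _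
    have hDe : Effective y D := by
      constructor
      · intro Q hQ
        have hQ' : IsPrimeDivisor y (comap ψ Q) := (hψ (comap ψ Q) Q fun g => rfl).2 hQ
        obtain ⟨l, hl⟩ := exists_centred hy (comap ψ Q)
        have h1 := hσs _ l hQ' hl
        rw [comap_ord] at h1
        have h2 := hHP _ l hQ' hl
        rw [comap_ord] at h1 h2
        rw [hD]
        simp only
        rw [h2]
        push_cast at h1 ⊢
        linarith
      · rw [hD]
        exact Fin0.add hf1 (Fin0.add hf2 hf3)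
    have h1 := subset_closure (eff_mem (c := cQ c) hDe)
    rw [hD, cls_add hf1 (Fin0.add hf2 hf3), cls_add hf2 hf3, cls_smul, cls_smul,
      princG hc hψσ, zero_add, toR_add, toR_smul, toR_smul, ← hx, ← hη] at h1
    have h2 := clo_smul h1 (show 0 ≤ 1 / ((k : ℝ) * (q + 1)) by positivity)
    rw [smul_add, smul_smul, smul_smul] at h2
    have e1 : 1 / ((k : ℝ) * (q + 1)) * (((k * (q + 1) : ℕ) : ℚ) : ℝ) = 1 := by
      push_cast
      field_simp
    have e2 : 1 / ((k : ℝ) * (q + 1)) * (((k : ℚ)) : ℝ) = 1 / ((q : ℝ) + 1) := by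
      push_cast
      field_simp
    rw [e1, e2, one_smul] at h2
    exact h2
  have hlim : Filter.Tendsto (fun q : ℕ => x + (1 / ((q : ℝ) + 1)) • η) Filter.atTop (𝓝 x) := by
    have h1 : Filter.Tendsto (fun q : ℕ => (1 / ((q : ℝ) + 1)) • η) Filter.atTop (𝓝 ((0 : ℝ) • η)) :=
      tendsto_one_div_add_atTop_nhds_zero_nat.smul_const η
    rw [zero_smul] at h1
    have h2 := h1.const_add x
    rwa [add_zero] at h2
  exact isClosed_closure.mem_of_tendsto hlim (Filter.Eventually.of_forall key)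

theorem cls_bd (hy : NormalModel y) (hc : NumClasses y c) {i : Fin (N + 1)} (hi : y i ≠ 0)
    {Hy : Place ℂ K → ℚ} (hHe : Effective y Hy)
    (hHP : ∀ P l, IsPrimeDivisor y P → Centred y l P → Hy P = P.ord (y i / y l))
    (hps : ∀ v, PseudoAut (φ v) y) {U : Place ℂ K → ℚ}
    (hU : {P | IsPrimeDivisor y P ∧ U P ≠ 0}.Finite) (hUm : MovD y U) {C : ℝ} (hC : 0 < C)
    (hdeg : ∀ v : G, ∃ (P D : ℕ) (h : K), 1 ≤ P ∧ (D : ℝ) ≤ C * P ∧ h ≠ 0 ∧
      ∀ Q, IsPrimeDivisor y Q → (P : ℚ) * U (comap (φ v) Q) ≤ Q.ord h + D * Hy Q) :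
    ∃ B : ℝ, ∀ v : G, ‖toR (cls y (cQ c) (fun Q => U (comap (φ v) Q)))‖ ≤ B := by
  classical
  obtain ⟨c0, hc0, hcb⟩ := salient_bound (closure (effSet y (cQ c))) isClosed_closure
    (fun x hx r hr => clo_smul hx hr) (fun x hx hx' => hc.salient x hx hx')
  obtain ⟨η, hη⟩ : ∃ η, η = toR (cls y (cQ c) Hy) := ⟨_, rfl⟩
  have hηm : η ∈ closure (effSet y (cQ c)) := by rw [hη]; exact subset_closure (eff_mem hHe)
  refine ⟨C * ‖η‖ / c0, fun v => ?_⟩
  obtain ⟨P, D, h, hP, hD, hh, hle⟩ := hdeg v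
  obtain ⟨x, hx⟩ : ∃ x, x = toR (cls y (cQ c) (fun Q => U (comap (φ v) Q))) := ⟨_, rfl⟩
  have hxm : x ∈ closure (effSet y (cQ c)) := by
    rw [hx]
    exact psef_pull hy hc hi hHe hHP (hps v) hU hUm
  have hPR : (0 : ℝ) < P := by exact_mod_cast hP
  have hU' := fin_comap (hps v) hU
  have hf1 : Fin0 y (fun Q => ((Q.ord h : ℤ) : ℚ)) := by
    refine (finite_ord hy hh).subset ?_
    rintro P ⟨hP, h1⟩
    refine ⟨hP, fun h2 => h1 ?_⟩
    show ((P.ord h : ℤ) : ℚ) = 0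
    rw [h2, Int.cast_zero]
  have hf2 : Fin0 y (fun Q => (D : ℚ) * Hy Q) := Fin0.smul (y := y) hHe.2 _
  have hf3 : Fin0 y (fun Q => (P : ℚ) * U (comap (φ v) Q)) := Fin0.smul (y := y) hU' _
  have hE : Effective y (fun Q => (((Q.ord h : ℤ) : ℚ) + (D : ℚ) * Hy Q) -
      (P : ℚ) * U (comap (φ v) Q)) := by
    refine ⟨fun Q hQ => ?_, Fin0.sub (Fin0.add hf1 hf2) hf3⟩
    have := hle Q hQ
    show (0 : ℚ) ≤ (((Q.ord h : ℤ) : ℚ) + (D : ℚ) * Hy Q) - (P : ℚ) * U (comap (φ v) Q)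
    linarith
  have h1 := subset_closure (eff_mem (c := cQ c) hE)
  rw [cls_sub (Fin0.add hf1 hf2) hf3, cls_add hf1 hf2, cls_smul, cls_smul, princG hc hh,
    zero_add, toR_sub, toR_smul, toR_smul, ← hx, ← hη] at h1
  have h2 := clo_smul h1 (show 0 ≤ 1 / (P : ℝ) by positivity)
  have h3 := clo_smul hηm (show 0 ≤ C - D / P by
    rw [sub_nonneg, div_le_iff₀ hPR]
    exact hD)
  have h4 := clo_add h2 h3
  have e1 : (1 / (P : ℝ)) • ((((D : ℚ)) : ℝ) • η - (((P : ℚ)) : ℝ) • x) + (C - D / P) • η =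
      C • η - x := by
    rw [smul_sub, smul_smul, smul_smul, sub_smul]
    have e2 : 1 / (P : ℝ) * (((P : ℚ)) : ℝ) = 1 := by
      push_cast
      field_simp
    have e3 : 1 / (P : ℝ) * (((D : ℚ)) : ℝ) = D / P := by
      push_cast
      ring
    rw [e2, e3, one_smul]
    abel
  rw [e1] at h4
  have h5 := hcb _ hxm _ h4
  rw [add_sub_cancel, norm_smul, Real.norm_of_nonneg hC.le] at h5
  rw [← hx, le_div_iff₀ hc0, mul_comm]
  exact h5

end

end Run7.h913.SH
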