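import Pool.Agent.Run7.h913.SH.GeoW
import Pool.Agent.Run7.h913.QG.Top
import Pool.Agent.N110.DV.Conv

/-!
The intersection numbers `U · L ^ (n - 1)`, if `L + U` is not big.
-/

set_option autoImplicit false
set_option linter.overlappingInstances false
set_option linter.unusedSectionVars false

open FF Module MvPolynomial Pool.Agent.W602.GT Pool.Agent.W603.LV
open Pool.Agent.Y172 Pool.Agent.Y191 Pool.Agent.R887
open Pool.Agent.N110 Pool.Agent.N110.RK Pool.Agent.N110.DV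

namespace Run7.h913.SH

open Run7.h528.NR Run7.h913.QG Filter

section

variable {K : Type} [Field K] [Algebra ℂ K] {N n : ℕ} {y : Fin (N + 1) → K}

/-- the divisor `K_X + Δ'` is not big -/
def NotBig (y : Fin (N + 1) → K) (n : ℕ) (c : Place ℂ K → ℤ) (Δ' : Place ℂ K → ℚ) : Prop :=
  ∀ A : Place ℂ K → ℚ, Effective y A → ∀ ε : ℝ, 0 < ε → ∃ t : ℝ, 0 < t ∧ ∃ m₀ : ℕ, ∀ m b : ℕ,
    m₀ ≤ m → (b : ℝ) ≤ t * m → ∀ u : Fin (n - n) → K, (∀ a, IsPencil y (u a)) →
    ∀ g : Fin (n + 1) → K, (∀ i, g i ∈ Lsp y c m (m • Δ' + b • A)) → g 0 ≠ 0 →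
      (degreeOver u (fun i : Fin n => g i.succ / g 0) : ℝ) ≤ ε * m ^ n

theorem list_fun {k : ℕ} (W : Multiset K) (h : W.card = k) :
    ∃ v : Fin k → K, {x | x ∈ W} = Set.range v := by
  subst h
  have h1 : W.card = W.toList.length := by rw [Multiset.length_toList]
  refine ⟨fun j => W.toList.get (Fin.cast h1 j), ?_⟩
  ext x
  rw [Set.mem_ofPred_eq, Set.mem_range, ← Multiset.mem_toList, List.mem_iff_get]
  constructor
  · rintro ⟨i, hi⟩
    exact ⟨Fin.cast h1.symm i, hi⟩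
  · rintro ⟨j, hj⟩
    exact ⟨Fin.cast h1 j, hj⟩

theorem lsp_mul {c : Place ℂ K → ℤ} {m P : ℕ} {D D' : Place ℂ K → ℚ} {f g : K}
    (hf : f ∈ Lsp y c m D) (hg : g ∈ Lsp y 0 P D') : f * g ∈ Lsp y c m (D + D') := by
  intro Q hQ
  by_cases hf0 : f = 0
  · left; rw [hf0, zero_mul]
  by_cases hg0 : g = 0
  · left; rw [hg0, mul_zero]
  right
  have h1 := (hf Q hQ).resolve_left hf0
  have h2 := (hg Q hQ).resolve_left hg0
  rw [Q.ord_mul hf0 hg0, Pi.add_apply]
  rw [Pi.zero_apply, Int.cast_zero, mul_zero, zero_add] at h2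
  push_cast
  linarith

theorem mem_Dv {S : Set K} (hS : S.Finite) (h1 : (1 : K) ∈ S) {c : Place ℂ K → ℤ} {m P : ℕ}
    {E0 EW : Place ℂ K → ℚ} {g0 σ : K} {M0 W : Cls ℂ S}
    (hM : ∀ v ∈ M0.V, g0 * v ∈ Lsp y c m E0) (hW : ∀ v ∈ W.V, σ * v ∈ Lsp y 0 P EW) (j : ℕ) :
    ∀ v ∈ (Dv (mulCls hS h1) W M0 j).V, g0 * σ ^ j * v ∈ Lsp y c m (E0 + j • EW) := by
  induction j with
  | zero =>
    intro v hv
    rw [pow_zero, mul_one, zero_smul, add_zero]
    exact hM v hv
  | succ j ih =>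
    have key : (Dv (mulCls hS h1) W M0 (j + 1)).V ≤
        (Lsp y c m (E0 + (j + 1) • EW)).comap (LinearMap.mulLeft ℂ (g0 * σ ^ (j + 1))) := by
      change W.V * (Dv (mulCls hS h1) W M0 j).V ≤ _
      rw [Submodule.mul_le]
      intro w hw v hv
      rw [Submodule.mem_comap, LinearMap.mulLeft_apply]
      have e1 : g0 * σ ^ (j + 1) * (w * v) = (g0 * σ ^ j * v) * (σ * w) := by ring
      have e2 : E0 + (j + 1) • EW = (E0 + j • EW) + EW := by
        rw [succ_nsmul, add_assoc]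
      rw [e1, e2]
      exact lsp_mul (ih v hv) (hW w hw)
    intro v hv
    exact key hv

theorem num_small (hy : NormalModel y) (hn : Algebra.trdeg ℂ K = n) (hn0 : 0 < n)
    {i : Fin (N + 1)} (hi : y i ≠ 0) {c : Place ℂ K → ℤ} {Δ U AU : Place ℂ K → ℚ}
    (hU : {P | IsPrimeDivisor y P ∧ U P ≠ 0}.Finite) (hAU : Effective y AU)
    (hNB : NotBig y n c (Δ + U)) {m b : ℕ → ℕ} {g0 : ℕ → K} {A1 : Place ℂ K → ℚ}
    {M : EffT y → ℕ → Cls ℂ (affS y i)} (hm : ∀ q, q + 1 ≤ m q)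
    (hb : ∀ q : ℕ, (b q : ℝ) ≤ 1 / ((q : ℝ) + 1) * m q) (hg0 : ∀ q, g0 q ≠ 0)
    (hA1 : Effective y A1) (hM : ∀ A q v, v ∈ (M A q).V ↔
      g0 q * v ∈ Lsp y c (m q) (m q • Δ + (b q + 1) • (A1 + A.A))) (A : EffT y) {ε : ℝ}
    (hε : 0 < ε) : ∃ p₀ : ℕ, 1 ≤ p₀ ∧ ∀ (P b' : ℕ) (σ : K) (W : Cls ℂ (affS y i)), 1 ≤ P →
      p₀ * b' ≤ P → σ ≠ 0 → (∀ v ∈ W.V, σ * v ∈ Lsp y 0 P (P • U + b' • AU)) →
      ∀ᶠ q in atTop, (I (W ::ₘ Multiset.replicate (n - 1) (M A q)) : ℝ) ≤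
        (ε * P) * (m q : ℝ) ^ (n - 1) := by
  classical
  have cx := ctx hy hn hi
  obtain ⟨A', hA'⟩ : ∃ A' : Place ℂ K → ℚ, A' = fun Q => A1 Q + A.A Q + AU Q + |U Q| := ⟨_, rfl⟩
  have hA'e : Effective y A' := by
    constructor
    · intro Q hQ
      have h1 := hA1.1 Q hQ
      have h2 := A.eff.1 Q hQ
      have h3 := hAU.1 Q hQ
      have h4 := abs_nonneg (U Q)
      rw [hA']
      simp only
      linarith
    · refine (((hA1.2.union A.eff.2).union hAU.2).union hU).subset ?_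
      rintro Q ⟨hQ, h0⟩
      by_contra hcon
      simp only [Set.mem_union, Set.mem_ofPred_eq, not_or, not_and, not_not] at hcon
      obtain ⟨⟨⟨k1, k2⟩, k3⟩, k4⟩ := hcon
      apply h0
      rw [hA']
      simp only
      rw [k1 hQ, k2 hQ, k3 hQ, k4 hQ]
      simp
  obtain ⟨t, ht, m₀, hNB'⟩ := hNB A' hA'e (ε / 2) (by positivity)
  obtain ⟨p₁, hp₁⟩ := exists_nat_ge (4 / t)
  refine ⟨p₁ + 1, Nat.le_add_left 1 p₁, fun P b' σ W hP hPb hσ hW => ?_⟩
  obtain ⟨q₁, hq₁⟩ := exists_nat_ge (4 * (P + 1) / t)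
  filter_upwards [eventually_ge_atTop (m₀ + 2 * P + q₁ + p₁)] with q hq
  -- numerical estimates
  have hmq := hm q
  obtain ⟨mq, hmqd⟩ : ∃ mq, mq = m q := ⟨_, rfl⟩
  obtain ⟨bq, hbqd⟩ : ∃ bq, bq = b q := ⟨_, rfl⟩
  have hbq := hb q
  rw [← hmqd] at hmq ⊢
  rw [← hmqd, ← hbqd] at hbq
  obtain ⟨k, hk⟩ : ∃ k, k = mq / P := ⟨_, rfl⟩
  have hk1 : k * P ≤ mq := by rw [hk]; exact Nat.div_mul_le_self mq P
  have hk2 : mq < (k + 1) * P := by
    rw [hk]
    have := Nat.lt_div_mul_add (a := mq) (b := P) hP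
    calc mq < mq / P * P + P := this
      _ = _ := by ring
  have hmR : (0 : ℝ) < mq := by
    have : 0 < mq := by omega
    exact_mod_cast this
  have hPR : (0 : ℝ) < P := by exact_mod_cast hP
  have hk3 : (mq : ℝ) ≤ 2 * P * k := by
    have h1 : 2 * P ≤ mq := by omega
    have h2 : mq ≤ 2 * P * k := by
      have h3 : mq < k * P + P := by rw [← Nat.succ_mul]; exact hk2
      nlinarith
    exact_mod_cast h2
  have hk0 : (0 : ℝ) < k := by
    by_contra hcon
    have h1 : (k : ℝ) ≤ 0 := not_lt.1 hcon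
    have h2 : 2 * (P : ℝ) * k ≤ 0 := mul_nonpos_of_nonneg_of_nonpos (by positivity) h1
    linarith
  have hB : ((bq + 1 + k * b' + P : ℕ) : ℝ) ≤ t * mq := by
    have h1 : (bq : ℝ) ≤ t / 4 * mq := by
      refine hbq.trans (mul_le_mul_of_nonneg_right ?_ hmR.le)
      have h2 : (p₁ : ℝ) ≤ q := by
        have : p₁ ≤ q := by omega
        exact_mod_cast this
      rw [div_le_iff₀ (by positivity)]
      have h3 : 4 / t ≤ (q : ℝ) + 1 := by linarith
      rw [div_le_iff₀ ht] at h3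
      linarith
    have h2 : (P : ℝ) + 1 ≤ t / 4 * mq := by
      have h3 : (q₁ : ℝ) ≤ mq := by
        have : q₁ ≤ mq := by omega
        exact_mod_cast this
      have h4 : 4 * ((P : ℝ) + 1) / t ≤ mq := hq₁.trans h3
      rw [div_le_iff₀ ht] at h4
      linarith
    have h3 : (k : ℝ) * b' ≤ t / 4 * mq := by
      have h4 : ((p₁ : ℝ) + 1) * b' ≤ P := by exact_mod_cast hPb
      have h5 : 4 / t * b' ≤ P := by
        refine le_trans (mul_le_mul_of_nonneg_right ?_ (Nat.cast_nonneg _)) h4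
        linarith
      have h6 : (b' : ℝ) ≤ t / 4 * P := by
        have h7 := mul_le_mul_of_nonneg_left h5 (show 0 ≤ t / 4 by positivity)
        have h8 : t / 4 * (4 / t * b') = b' := by field_simp
        rwa [h8] at h7
      have h7 : (k : ℝ) * P ≤ mq := by exact_mod_cast hk1
      calc (k : ℝ) * b' ≤ k * (t / 4 * P) := mul_le_mul_of_nonneg_left h6 hk0.le
        _ = t / 4 * (k * P) := by ring
        _ ≤ t / 4 * mq := mul_le_mul_of_nonneg_left h7 (by positivity)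
    push_cast
    have h4 : 0 ≤ t / 4 * mq := by positivity
    linarith
  -- the product
  obtain ⟨D, hD⟩ : ∃ D, D = Dv (mulCls (fin_affS i) (one_affS hi)) W (M A q) k := ⟨_, rfl⟩
  have hDmem : ∀ v ∈ D.V, g0 q * σ ^ k * v ∈
      Lsp y c mq (mq • (Δ + U) + (bq + 1 + k * b' + P) • A') := by
    intro v hv
    rw [hD] at hv
    have h1 := mem_Dv (fin_affS i) (one_affS hi) (y := y) (c := c) (m := mq) (P := P)
      (fun v hv => by rw [hmqd]; exact (hM A q v).1 hv) hW k v hv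
    intro Q hQ
    refine (h1 Q hQ).imp_right fun h2 => le_trans (neg_le_neg ?_) h2
    have e1 := hA1.1 Q hQ
    have e2 := A.eff.1 Q hQ
    have e3 := hAU.1 Q hQ
    have e4 := abs_nonneg (U Q)
    have hk1' : (k : ℚ) * P ≤ mq := by exact_mod_cast hk1
    have hk2' : (mq : ℚ) < (k + 1) * P := by exact_mod_cast hk2
    rw [sm2, Pi.add_apply, Pi.add_apply, sm1, sm1, sm1, sm2, ← hmqd, ← hbqd, hA']
    simp only [Pi.add_apply]
    push_cast
    have e5 : -(((mq : ℚ) - k * P) * U Q) ≤ P * |U Q| := by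
      have h3 : -(((mq : ℚ) - k * P) * U Q) ≤ ((mq : ℚ) - k * P) * |U Q| := by
        have h4 := neg_abs_le (U Q)
        nlinarith
      refine h3.trans (mul_le_mul_of_nonneg_right ?_ e4)
      linarith
    have hkb : (0 : ℚ) ≤ k * b' := by positivity
    have hbb : (0 : ℚ) ≤ (bq : ℚ) + 1 := by positivity
    have hPP : (0 : ℚ) ≤ P := by positivity
    have g1 : 0 ≤ (k * b' + P : ℚ) * (A1 Q + A.A Q) :=
      mul_nonneg (by linarith) (by linarith)
    have g2 : 0 ≤ ((bq : ℚ) + 1 + P) * AU Q := mul_nonneg (by linarith) e3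
    have g3 : 0 ≤ ((bq : ℚ) + 1 + k * b') * |U Q| := mul_nonneg (by linarith) e4
    nlinarith
  -- the degree of `D`
  have hDn : (I (Multiset.replicate n D) : ℝ) ≤ ε / 2 * mq ^ n := by
    obtain ⟨W', hW', e⟩ := exists_max cx (s := Multiset.replicate n D)
      (Multiset.card_replicate _ _)
    obtain ⟨hc', hW''⟩ := sel_rep.1 hW'
    obtain ⟨v, hv⟩ := list_fun W' hc'
    have hvD : ∀ j, v j ∈ D.V := by
      intro j
      refine hW'' _ ?_
      have : v j ∈ {x | x ∈ W'} := by rw [hv]; exact ⟨j, rfl⟩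
      exact this
    have hs0 : g0 q * σ ^ k ≠ 0 := mul_ne_zero (hg0 q) (pow_ne_zero _ hσ)
    have h1 := hNB' mq (bq + 1 + k * b' + P) (by omega) hB (fun a => 0)
      (fun a => by
        have := a.2
        omega)
      (Fin.cons (g0 q * σ ^ k) fun j => g0 q * σ ^ k * v j) (fun j => by
        refine Fin.cases ?_ (fun j => ?_) j
        · have h2 := hDmem 1 D.one
          rw [mul_one] at h2
          exact h2
        · exact hDmem _ (hvD j)) hs0
    have h2 : (fun j : Fin n => (Fin.cons (g0 q * σ ^ k) fun j => g0 q * σ ^ k * v j :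
        Fin (n + 1) → K) j.succ / (Fin.cons (g0 q * σ ^ k) fun j => g0 q * σ ^ k * v j :
        Fin (n + 1) → K) 0) = v := by
      funext j
      rw [Fin.cons_succ, Fin.cons_zero, mul_div_cancel_left₀ _ hs0]
    rw [h2, deg_dm (U := (0 : Multiset K)) (V := W') (by
      ext x
      constructor
      · intro hx
        exact absurd hx (Multiset.notMem_zero x)
      · rintro ⟨a, -⟩
        have := a.2
        omega) hv, zero_add, e] at h1
    exact h1
  -- the intersection number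
  have hmul : ∀ a b (s : Multiset (Cls ℂ (affS y i))), s.card + 1 = n →
      ((I (mulCls (fin_affS i) (one_affS hi) a b ::ₘ s) : ℕ) : ℝ) =
        (I (a ::ₘ s) : ℝ) + (I (b ::ₘ s) : ℝ) := by
    intro a b s hs
    have h1 := I_add cx (D := mulCls (fin_affS i) (one_affS hi) a b) (V := a) (V' := b)
      le_rfl hs
    have h2 := I_mul_ge cx (D := mulCls (fin_affS i) (one_affS hi) a b) (V := a) (V' := b)
      le_rfl hs
    exact_mod_cast le_antisymm h1 h2
  have hDs : ∀ s : Multiset (Cls ℂ (affS y i)), s.card + 1 = n →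
      (I (D ::ₘ s) : ℝ) = (I (M A q ::ₘ s) : ℝ) + k * (I (W ::ₘ s) : ℝ) := by
    intro s hs
    rw [hD]
    exact t_D (t := fun s : Multiset (Cls ℂ (affS y i)) => ((I s : ℕ) : ℝ)) hmul W (M A q) k s hs
  have hMD : Le n (fun s : Multiset (Cls ℂ (affS y i)) => ((I s : ℕ) : ℝ)) 1 (M A q) D := by
    intro s hs
    beta_reduce
    rw [hDs s hs, one_mul]
    have : 0 ≤ (k : ℝ) * (I (W ::ₘ s) : ℝ) := by positivity
    linarith
  have h3 := hMD.rep zero_le_one (n - 1) {W} (by rw [Multiset.card_singleton]; omega)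
  rw [one_pow, one_mul, add_comm, Multiset.singleton_add, add_comm, Multiset.singleton_add] at h3
  have h4 : (k : ℝ) * (I (W ::ₘ Multiset.replicate (n - 1) D) : ℝ) ≤
      (I (Multiset.replicate n D) : ℝ) := by
    have h5 := hDs (Multiset.replicate (n - 1) D) (by rw [Multiset.card_replicate]; omega)
    have e1 : D ::ₘ Multiset.replicate (n - 1) D = Multiset.replicate n D := by
      rw [← Multiset.replicate_succ]
      congr 1
      omega
    rw [e1] at h5
    have : (0 : ℝ) ≤ (I (M A q ::ₘ Multiset.replicate (n - 1) D) : ℝ) := Nat.cast_nonneg _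
    linarith
  have h5 : (k : ℝ) * (I (W ::ₘ Multiset.replicate (n - 1) (M A q)) : ℝ) ≤ ε / 2 * mq ^ n :=
    (mul_le_mul_of_nonneg_left h3 hk0.le).trans (h4.trans hDn)
  have h6 : ε / 2 * (mq : ℝ) ^ n ≤ k * ((ε * P) * (mq : ℝ) ^ (n - 1)) := by
    have e1 : (mq : ℝ) ^ n = mq * mq ^ (n - 1) := by
      rw [← pow_succ']
      congr 1
      omega
    rw [e1]
    have h7 : 0 ≤ ε / 2 * (mq : ℝ) ^ (n - 1) := by positivity
    calc ε / 2 * (mq * (mq : ℝ) ^ (n - 1)) = ε / 2 * (mq : ℝ) ^ (n - 1) * mq := by ring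
      _ ≤ ε / 2 * (mq : ℝ) ^ (n - 1) * (2 * P * k) := mul_le_mul_of_nonneg_left hk3 h7
      _ = _ := by ring
  exact le_of_mul_le_mul_left (h5.trans h6) hk0

end

end Run7.h913.SH
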