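import Pool.Agent.Run7.h913.SH.Defs
import Pool.Agent.Run7.h913.SH.Num
import Pool.Agent.Run7.h913.SH.Abs
import Pool.Agent.N110.NV.CT

/-!
The pull backs of a movable divisor `U` by a group which preserves `L`, if `L + U` is not big.
-/

set_option autoImplicit false
set_option linter.overlappingInstances false
set_option linter.unusedSectionVars false

open FF Module MvPolynomial Pool.Agent.W602.GT Pool.Agent.W603.LV
open Pool.Agent.Y172 Pool.Agent.Y191 Pool.Agent.R887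
open Pool.Agent.N110 Pool.Agent.N110.RK Pool.Agent.N110.DV

namespace Run7.h913.SH

open Run7.h528.NR Run7.h913.QG Filter

section

variable {K : Type} [Field K] [Algebra ℂ K] {N n : ℕ} {y : Fin (N + 1) → K}

theorem ord_hyp {i : Fin (N + 1)} (hi : y i ≠ 0) {l l' : Fin (N + 1)} (hl : y l ≠ 0)
    {Q : Place ℂ K} (hc : Centred y l' Q) : -(Q.ord (y i / y l')) ≤ Q.ord (y l / y i) := by
  have h1 : y l / y i = (y l / y l') * (y i / y l')⁻¹ := by
    have := hc.1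
    field_simp
  have h2 : y l / y l' ≠ 0 := div_ne_zero hl hc.1
  have h3 : y i / y l' ≠ 0 := div_ne_zero hi hc.1
  rw [h1, Q.ord_mul h2 (inv_ne_zero h3), Q.ord_inv]
  have h4 := (Q.reg_iff h2).1 (hc.2 l)
  omega

theorem deg_bd (hy : NormalModel y) {d : ℕ} (hn : Algebra.trdeg ℂ K = ((d + 2 : ℕ) : Cardinal))
    {i : Fin (N + 1)} (hi : y i ≠ 0) {E : Fin (d + 2) → Derivation ℂ K K}
    (hfr : IsFrame E) {c : Place ℂ K → ℤ} (hcfin : {P | IsPrimeDivisor y P ∧ c P ≠ 0}.Finite)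
    (hc' : IsDisc y E c) {Δ U : Place ℂ K → ℚ}
    (hΔ : {P | IsPrimeDivisor y P ∧ Δ P ≠ 0}.Finite) {G : Type} [Group G]
    {φ : G → (K ≃ₐ[ℂ] K)} (hφ0 : φ 1 = 1)
    (hφ : ∀ u v, φ (u * v) = φ u * φ v) (hps : ∀ v, PseudoAut (φ v) y)
    (hP : ∀ v, WPulls y c Δ (φ v))
    (hnum : ¬ NumDimLt y (d + 2) Δ (d + 1)) (hU : {P | IsPrimeDivisor y P ∧ U P ≠ 0}.Finite)
    (hUm : MovD y U) (hNB : NotBig y (d + 2) c (Δ + U)) {Hy : Place ℂ K → ℚ}
    (hHP : ∀ P l, IsPrimeDivisor y P → Centred y l P → Hy P = P.ord (y i / y l)) :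
    ∃ C : ℝ, 0 < C ∧ ∀ v : G, ∃ (P D : ℕ) (h : K), 1 ≤ P ∧ (D : ℝ) ≤ C * P ∧ h ≠ 0 ∧
      ∀ Q, IsPrimeDivisor y Q → (P : ℚ) * U (comap (φ v) Q) ≤ Q.ord h + D * Hy Q := by
  classical
  have cx := ctx hy hn hi
  have hHe : Effective y Hy := by
    obtain ⟨H', hH', hH'P⟩ := exists_hyp hy hi
    have e1 : ∀ Q, IsPrimeDivisor y Q → Hy Q = H' Q := fun Q hQ => by
      obtain ⟨l, hl⟩ := exists_centred hy Q
      rw [hHP Q l hQ hl, hH'P Q l hQ hl]
    refine ⟨fun Q hQ => by rw [e1 Q hQ]; exact hH'.1 Q hQ, hH'.2.subset ?_⟩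
    rintro Q ⟨hQ, h0⟩
    exact ⟨hQ, by rwa [← e1 Q hQ]⟩
  obtain ⟨m, b, g0, A1, M, c', ε, hm, hb, hg0, hA1, hM, hsys⟩ := exists_gsysX hy hn (by omega) hi
    hfr hcfin hc' hΔ hφ0 hφ hP (ν := d + 1) (by omega) hnum
  obtain ⟨Cf, hCf, hfar⟩ := far hsys
  -- the constants of domination
  have h0fin : {P : Place ℂ K | IsPrimeDivisor y P ∧ (0 : Place ℂ K → ℤ) P ≠ 0}.Finite := by
    refine Set.finite_empty.subset ?_
    rintro P ⟨-, h⟩
    exact absurd rfl h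
  obtain ⟨β, f, hf, hdom⟩ := dom_sections hy hi h0fin hU
  obtain ⟨AU, hAUd⟩ : ∃ AU, AU = Hy + Hy := ⟨_, rfl⟩
  have hAU : Effective y AU := by rw [hAUd]; exact Effective.add' hHe hHe
  obtain ⟨βA, gA, hgA, hdomA⟩ := hdom AU hAU
  obtain ⟨T, hT⟩ : ∃ T : ℕ, T = I (Multiset.replicate (d + 2) (hcls hy hi)) := ⟨_, rfl⟩
  obtain ⟨CU, hCU⟩ : ∃ CU : ℝ, CU = ((β : ℝ) + βA) * T := ⟨_, rfl⟩
  have hCU0 : 0 ≤ CU := by rw [hCU]; positivity
  by_cases hex : ∃ P₁, IsPrimeDivisor y P₁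
  swap
  · exact ⟨1, one_pos, fun v => ⟨1, 0, 1, le_rfl, by norm_num, one_ne_zero,
      fun Q hQ => absurd ⟨Q, hQ⟩ hex⟩⟩
  obtain ⟨P₁, hP₁⟩ := hex
  refine ⟨Cf * (1 + CU), by positivity, fun v => ?_⟩
  obtain ⟨A, hA⟩ := hfar v
  obtain ⟨Dv, hDv⟩ : ∃ Dv : ℝ, Dv = (I (mapCls hy hi (φ v) (hcls hy hi) ::ₘ
    Multiset.replicate (d + 1) (hcls hy hi)) : ℝ) := ⟨_, rfl⟩
  have hDv0 : 0 ≤ Dv := by rw [hDv]; exact Nat.cast_nonneg _
  obtain ⟨p₀, hp₀, hsm⟩ := num_small hy hn (by omega) hi hU hAU hNB hm hb hg0 hA1 hM A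
    (ε := 1 / (1 + Dv)) (by positivity)
  -- the multiple of `U`
  obtain ⟨k, hk, hmov⟩ := hUm i hi (2 * p₀) (by omega)
  obtain ⟨P, hPd⟩ : ∃ P : ℕ, P = k * (2 * p₀) := ⟨_, rfl⟩
  have hPk : 2 * k ≤ P := by rw [hPd]; nlinarith
  have hP1 : 1 ≤ P := by omega
  have hPpk : p₀ * (k + 1) ≤ P := by rw [hPd]; nlinarith
  have hsec : ∀ g : K, (∀ Q l, IsPrimeDivisor y Q → Centred y l Q →
      -((k : ℚ) * (2 * p₀ : ℕ) * U Q) - k * Q.ord (y i / y l) ≤ Q.ord g) →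
      ∀ Q, IsPrimeDivisor y Q → -((P : ℚ) * U Q) - k * Hy Q ≤ Q.ord g := by
    intro g hg Q hQ
    obtain ⟨l, hl⟩ := exists_centred hy Q
    have h1 := hg Q l hQ hl
    rw [hHP Q l hQ hl, hPd]
    push_cast at h1 ⊢
    exact h1
  obtain ⟨σ, hσ, hσs, -⟩ := hmov P₁ hP₁
  have hσs' := hsec σ hσs
  have hσL : σ ∈ Lsp y 0 P (P • U + k • Hy) := by
    intro Q hQ
    right
    rw [sm2, Pi.zero_apply, Int.cast_zero, mul_zero, zero_add]
    have := hσs' Q hQ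
    linarith
  have hmem : ∀ l, σ * (y l / y i) ∈ Lsp y 0 P (P • U + (k + 1) • AU) := by
    intro l
    rw [hAUd]
    exact mul_hyp hy hHe hHe hHP hi hσL l
  obtain ⟨W, hWd⟩ : ∃ W : Cls ℂ (affS y i), W = secCls hy hi h0fin hU hAU P (k + 1) hσ hmem :=
    ⟨_, rfl⟩
  have hW : ∀ v, v ∈ W.V ↔ σ * v ∈ Lsp y 0 P (P • U + (k + 1) • AU) := by
    intro v
    rw [hWd]
    rfl
  have hPR : (0 : ℝ) < P := by exact_mod_cast hP1
  -- the degree of `W`
  have hWH : (I (W ::ₘ Multiset.replicate (d + 1) (hcls hy hi)) : ℝ) ≤ CU * P := by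
    have e1 := I_dom cx (V := W) (H := hcls hy hi) (fun v hv => hv)
      (B := P * β + (k + 1) * βA) (f := f ^ P * gA ^ (k + 1) * σ)
      (mul_ne_zero (mul_ne_zero (pow_ne_zero _ hf) (pow_ne_zero _ hgA)) hσ)
      (fun v hv => by
        rw [mul_assoc]
        exact hdomA P (k + 1) _ ((hW v).1 hv)) (s := Multiset.replicate (d + 1) (hcls hy hi))
      (by rw [Multiset.card_replicate])
    rw [← Multiset.replicate_succ, ← hT] at e1
    have e2 : P * β + (k + 1) * βA ≤ P * (β + βA) := by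
      have : (k + 1) * βA ≤ P * βA := Nat.mul_le_mul_right _ (by omega)
      rw [Nat.mul_add]
      omega
    have e3 := e1.trans (Nat.mul_le_mul_right T e2)
    have e4 : ((I (W ::ₘ Multiset.replicate (d + 1) (hcls hy hi)) : ℕ) : ℝ) ≤
        ((P * (β + βA) * T : ℕ) : ℝ) := Nat.cast_le.2 e3
    refine e4.trans (le_of_eq ?_)
    rw [hCU]
    push_cast
    ring
  -- the degree of the pull back
  obtain ⟨D, hD⟩ : ∃ D : ℕ, D = I (mapCls hy hi (φ v) W ::ₘ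
    Multiset.replicate (d + 1) (hcls hy hi)) := ⟨_, rfl⟩
  have hDle : (D : ℝ) ≤ Cf * (1 + CU) * P := by
    have h1 := hA W (1 / (1 + Dv) * P) (by positivity)
      (hsm P (k + 1) σ W hP1 hPpk hσ fun v hv => (hW v).1 hv)
    beta_reduce at h1
    rw [← hD, ← hDv] at h1
    refine h1.trans ?_
    have e1 : 1 / (1 + Dv) * P * (1 + Dv) = P := by
      have : 1 + Dv ≠ 0 := by positivity
      field_simp
    rw [e1, mul_assoc]
    refine mul_le_mul_of_nonneg_left ?_ hCf.le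
    linarith
  -- the zeros of `σ` and the generic section
  obtain ⟨Z, hZ⟩ : ∃ Z : Place ℂ K → ℚ, ∀ Q, Z Q = Q.ord σ + P * U Q + (k + 1) * AU Q :=
    ⟨_, fun _ => rfl⟩
  obtain ⟨S, hS⟩ : ∃ S : Set (Place ℂ K), S = {Q | IsPrimeDivisor y Q ∧ Z Q ≠ 0} := ⟨_, rfl⟩
  have hSfin : S.Finite := by
    rw [hS]
    refine (((finite_ord hy hσ).union hU).union hAU.2).subset ?_
    rintro Q ⟨hQ, h0⟩
    by_contra hcon
    simp only [Set.mem_union, Set.mem_ofPred_eq, not_or, not_and, not_not] at hcon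
    obtain ⟨⟨k1, k2⟩, k3⟩ := hcon
    apply h0
    rw [hZ, k1 hQ, k2 hQ, k3 hQ]
    simp
  choose! gg hgg using hmov
  choose ll hll using fun Q : Place ℂ K => exists_centred hy Q
  obtain ⟨ss, hss⟩ : ∃ ss : Place ℂ K → K, ∀ Q, ss Q = gg Q * (y (ll Q) / y i) ^ (k + 2) / σ :=
    ⟨_, fun _ => rfl⟩
  have hyl : ∀ Q, y (ll Q) / y i ≠ 0 := fun Q => div_ne_zero (hll Q).1 hi
  have hss0 : ∀ Q, IsPrimeDivisor y Q → ss Q ≠ 0 := fun Q hQ => by
    rw [hss]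
    exact div_ne_zero (mul_ne_zero (hgg Q hQ).1 (pow_ne_zero _ (hyl Q))) hσ
  obtain ⟨F, hF⟩ : ∃ F : Set K, F = insert 1 (ss '' S) := ⟨_, rfl⟩
  have hFfin : F.Finite := by rw [hF]; exact (hSfin.image _).insert _
  have h1F : (1 : K) ∈ F := by rw [hF]; exact Set.mem_insert _ _
  obtain ⟨z, hz, hz0, hzo⟩ := exists_generic (k₀ := ℂ) (k := ℂ) (K := K) hFfin S hSfin
    ⟨1, h1F, one_ne_zero⟩
  have hFW : Submodule.span ℂ F ≤ W.V := by
    rw [Submodule.span_le]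
    intro x hx
    rw [hF] at hx
    rcases hx with rfl | ⟨Q, hQ, rfl⟩
    · exact W.one
    · have hQp : IsPrimeDivisor y Q := by rw [hS] at hQ; exact hQ.1
      change ss Q ∈ W.V
      rw [hW, hss, mul_div_cancel₀ _ hσ]
      intro R hR
      right
      obtain ⟨l, hl⟩ := exists_centred hy R
      have e1 := hsec _ (hgg Q hQp).2.1 R hR
      have e2 := ord_hyp hi (hll Q).1 hl
      have e3 : -(Hy R) ≤ (R.ord (y (ll Q) / y i) : ℚ) := by
        rw [hHP R l hR hl]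
        exact_mod_cast e2
      rw [sm2, Pi.zero_apply, Int.cast_zero, mul_zero, zero_add, hAUd, Pi.add_apply,
        R.ord_mul (hgg Q hQp).1 (pow_ne_zero _ (hyl Q)), R.ord_pow]
      push_cast
      have e4 := mul_le_mul_of_nonneg_left e3 (show (0 : ℚ) ≤ k + 2 by positivity)
      linarith
  have hzW := hFW hz
  -- the denominators
  have hφz : φ v z ≠ 0 := by rwa [Ne, map_eq_zero]
  have hφσ : φ v σ ≠ 0 := by rwa [Ne, map_eq_zero]
  have hdeg : ∀ u : Fin (d + 2 - 1) → K, (∀ a, IsPencil y (u a)) →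
      degreeOver u (fun _ : Fin 1 => φ v z) ≤ D := by
    intro u hu
    have e1 : degreeOver u (fun _ : Fin 1 => φ v z) =
        dm ℂ (toM u + toM (fun _ : Fin 1 => φ v z)) := deg_dm (toM_set _) (toM_set _)
    obtain ⟨Q', hQ', e2⟩ := replace_pencils' hy hn hi (toM u) (toM (fun _ : Fin 1 => φ v z))
      (by rw [Multiset.card_add, toM_card, toM_card]; omega) (fun x hx => by
        obtain ⟨j, rfl⟩ := mem_toM.1 hx
        exact hu j)
    rw [toM_card] at hQ'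
    have e3 : Q' + toM (fun _ : Fin 1 => φ v z) = φ v z ::ₘ Q' := by
      rw [add_comm, ← Multiset.singleton_add]
      rfl
    rw [e1, hD]
    refine e2.trans ?_
    rw [e3]
    exact le_I cx (by rw [Multiset.card_cons, Multiset.card_replicate])
      (sel_cons (mapCls_mem hzW) hQ')
  obtain ⟨h, hh0, hh⟩ := NV.ct K N (d + 2) y hy hn (by omega) i hi (φ v z) D hφz hdeg
  refine ⟨P, D, h / φ v σ, hP1, hDle, div_ne_zero hh0 hφσ, fun Q hQ => ?_⟩
  obtain ⟨l, hl⟩ := exists_centred hy Q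
  obtain ⟨h1, h2⟩ := hh Q l hQ hl
  obtain ⟨Q', hQ'd⟩ : ∃ Q', Q' = comap (φ v) Q := ⟨_, rfl⟩
  have hQ' : IsPrimeDivisor y Q' := by
    rw [hQ'd]
    exact (hps v (comap (φ v) Q) Q fun g => rfl).2 hQ
  have hord : ∀ g, Q'.ord g = Q.ord (φ v g) := fun g => by rw [hQ'd]; rfl
  rw [← hQ'd]
  have hHQ := hHP Q l hQ hl
  have key : Z Q' ≤ Q.ord h + D * Hy Q := by
    by_cases h0 : Z Q' = 0
    · rw [h0, hHQ]
      exact_mod_cast h1
    · have hQS : Q' ∈ S := by rw [hS]; exact ⟨hQ', h0⟩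
      have e1 := hzo Q' hQS (ss Q') (by rw [hF]; exact Set.mem_insert_of_mem _ ⟨Q', hQS, rfl⟩)
        (hss0 Q' hQ')
      have e2 := (hgg Q' hQ').2.2 (ll Q') (hll Q')
      have e3 : Q'.ord (y (ll Q') / y i) = -Q'.ord (y i / y (ll Q')) := by
        rw [← Q'.ord_inv, inv_div]
      have e4 := hHP Q' (ll Q') hQ' (hll Q')
      rw [hss, Q'.ord_div (mul_ne_zero (hgg Q' hQ').1 (pow_ne_zero _ (hyl Q'))) hσ,
        Q'.ord_mul (hgg Q' hQ').1 (pow_ne_zero _ (hyl Q')), Q'.ord_pow, e3] at e1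
      have e5 : (Q'.ord z : ℚ) ≤ Q'.ord (gg Q') + ((k + 2 : ℕ) : ℤ) * (-Q'.ord (y i / y (ll Q'))) -
          Q'.ord σ := by exact_mod_cast e1
      rw [e2] at e5
      rw [Q.ord_mul hh0 hφz] at h2
      have e6 : (0 : ℚ) ≤ (Q.ord h + Q.ord (φ v z) : ℤ) + D * (Q.ord (y i / y l) : ℤ) := by
        exact_mod_cast h2
      rw [← hord] at e6
      rw [hZ, hHQ, hAUd, Pi.add_apply, e4]
      rw [hPd]
      push_cast at e5 e6 ⊢
      linarith
  rw [Q.ord_div hh0 hφσ, ← hord]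
  have e7 := hAU.1 Q' hQ'
  rw [hZ] at key
  push_cast
  have e8 : 0 ≤ ((k : ℚ) + 1) * AU Q' := mul_nonneg (by positivity) e7
  linarith

end

end Run7.h913.SH
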