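import Pool.Agent.Run7.h913.ST.Str

/-!
Groups of integral matrices with quadratic growth: vectors with bounded orbits are fixed, and the
rank is bounded by the codimension of the space of the fixed vectors.
-/

set_option autoImplicit false

open Matrix Module

namespace Run7.h913.SH

open Run7.h913.ST

section

variable {ρ : ℕ}

theorem nv_zero_iff {v : Fin ρ → ℝ} (h : nv v ≤ 0) : v = 0 := by
  funext i
  exact abs_nonpos_iff.1 ((ventry_le v i).trans h)

theorem lin_zero {a b : Fin ρ → ℝ} {B : ℝ} (h : ∀ m : ℕ, nv (a + (m : ℝ) • b) ≤ B) : b = 0 := by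
  refine nv_zero_iff ?_
  by_contra hcon
  push Not at hcon
  obtain ⟨m, hm⟩ := exists_nat_gt ((B + nv a) / nv b)
  rw [div_lt_iff₀ hcon] at hm
  have h1 := h m
  have h2 : nv ((m : ℝ) • b) ≤ nv (a + (m : ℝ) • b) + nv a := by
    have h3 := nv_sub (a + (m : ℝ) • b) a
    rwa [add_sub_cancel_left] at h3
  rw [nv_smul, abs_of_nonneg (Nat.cast_nonneg _)] at h2
  linarith

variable {G : Type} [Group G] {M : G → Matrix (Fin ρ) (Fin ρ) ℤ} {x : Fin ρ → ℤ} {C : ℝ}

/-- a vector with bounded orbit is fixed -/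
theorem fix_of_bdd (h : Sys M x C) {g : G} (hg : g ∈ h.sub) {w : Fin ρ → ℤ} {B : ℝ}
    (hB : ∀ m : ℕ, nv (iv ((M (g ^ m)).mulVec w)) ≤ B) : (M g).mulVec w = w := by
  obtain ⟨n, hn⟩ : ∃ n, n = im (M g) - 1 := ⟨_, rfl⟩
  have hn3 : n ^ 3 = 0 := by rw [hn]; exact h.n3 hg
  have hMg : im (M g) = 1 + n := by rw [hn]; abel
  have hp : ∀ m : ℕ, iv ((M (g ^ m)).mulVec w) = ((1 + n) ^ m).mulVec (iv w) := by
    intro m
    rw [← im_mulVec, h.pow, map_pow, hMg]
  have hcomm : ∀ m : ℕ, (1 + n) ^ m * n = n * (1 + n) ^ m := fun m =>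
    (((Commute.one_left n).add_left (Commute.refl n)).pow_left m).eq
  -- the second power
  have h2 : (n * n).mulVec (iv w) = 0 := by
    refine lin_zero (a := n.mulVec (iv w)) (B := nr n * B) fun m => ?_
    have e1 : n.mulVec (iv w) + (m : ℝ) • (n * n).mulVec (iv w) =
        n.mulVec (((1 + n) ^ m).mulVec (iv w)) := by
      rw [pow_eq hn3, Matrix.add_mulVec, Matrix.add_mulVec, Matrix.one_mulVec, Matrix.mulVec_add,
        Matrix.mulVec_add, Matrix.smul_mulVec, Matrix.smul_mulVec, Matrix.mulVec_smul,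
        Matrix.mulVec_smul, Matrix.mulVec_mulVec, Matrix.mulVec_mulVec]
      have e2 : n * n ^ 2 = 0 := by rw [← pow_succ', hn3]
      rw [e2, Matrix.zero_mulVec, smul_zero, add_zero]
    rw [e1, ← hp]
    exact (nv_mulVec _ _).trans (mul_le_mul_of_nonneg_left (hB m) (nr_nonneg _))
  have h1 : n.mulVec (iv w) = 0 := by
    refine lin_zero (a := iv w) (B := B) fun m => ?_
    have e1 : iv w + (m : ℝ) • n.mulVec (iv w) = ((1 + n) ^ m).mulVec (iv w) := by
      rw [pow_eq hn3, Matrix.add_mulVec, Matrix.add_mulVec, Matrix.one_mulVec,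
        Matrix.smul_mulVec, Matrix.smul_mulVec, sq, h2, smul_zero, add_zero]
    rw [e1, ← hp]
    exact hB m
  refine iv_inj ?_
  rw [← im_mulVec, hMg, Matrix.add_mulVec, h1, add_zero, Matrix.one_mulVec]

/-- **The rank.** -/
theorem rank_le (h : Sys M x C) {r : ℕ} {Φ : h.sub →* Multiplicative (Fin r → ℤ)}
    (hs : Function.Surjective Φ) (hk : ∀ g : h.sub, Φ g = 1 ↔ M g = 1) {k : ℕ}
    {u : Fin k → Fin ρ → ℤ} (hu : LinearIndependent ℤ u)
    (hf : ∀ g ∈ h.sub, ∀ j, (M g).mulVec (u j) = u j) : r = 0 ∨ r + 1 + k ≤ ρ := by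
  classical
  rcases Nat.eq_zero_or_pos r with hr | hr
  · exact Or.inl hr
  right
  choose a ha using fun i : Fin r => hs (Multiplicative.ofAdd (Pi.single i (1 : ℤ)))
  obtain ⟨q, hq⟩ : ∃ q : (Fin r → ℤ) → h.sub, ∀ z, q z = (List.ofFn fun i => a i ^ z i).prod :=
    ⟨_, fun _ => rfl⟩
  have hΦq : ∀ z, Φ (q z) = Multiplicative.ofAdd z := by
    intro z
    refine Multiplicative.toAdd.injective ?_
    rw [hq, hom_pr]
    simp only [ha, toAdd_ofAdd]
    funext j
    rw [Finset.sum_apply]
    simp [Pi.single_apply]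
  have hlq : ∀ z, lg M (q z : G) = ∑ i, z i • lg M (a i : G) := by
    intro z
    have h1 := hom_pr h.lgH a z
    rw [← hq] at h1
    exact h1
  have hz0 : ∀ z : Fin r → ℤ, M (q z : G) = 1 → z = 0 := by
    intro z hz
    have h1 := (hk _).2 hz
    rw [hΦq] at h1
    exact Multiplicative.ofAdd.injective h1
  have hlu : ∀ g ∈ h.sub, ∀ j, (lg M g).mulVec (u j) = 0 := by
    intro g hg j
    unfold lg
    have e1 : (M g - 1).mulVec (u j) = 0 := by
      rw [Matrix.sub_mulVec, Matrix.one_mulVec, hf g hg j, sub_self]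
    rw [Matrix.sub_mulVec, Matrix.add_mulVec, ← Matrix.mulVec_mulVec, e1, Matrix.mulVec_zero]
    simp
  have hli : LinearIndependent ℤ (Sum.elim (fun _ : Fin 1 => x)
      (Sum.elim u fun i : Fin r => (lg M (a i : G)).mulVec x)) := by
    rw [Fintype.linearIndependent_iff]
    intro w hw
    rw [Fintype.sum_sum_type, Fintype.sum_sum_type] at hw
    simp only [Sum.elim_inl, Sum.elim_inr, Fin.sum_univ_one] at hw
    obtain ⟨z, hz⟩ : ∃ z : Fin r → ℤ, ∀ i, z i = w (Sum.inr (Sum.inr i)) := ⟨_, fun _ => rfl⟩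
    have hsum : ∑ i : Fin r, w (Sum.inr (Sum.inr i)) • (lg M (a i : G)).mulVec x =
        (lg M (q z : G)).mulVec x := by
      rw [hlq, Matrix.sum_mulVec]
      exact Finset.sum_congr rfl fun i _ => by rw [hz, Matrix.smul_mulVec]
    rw [hsum] at hw
    obtain ⟨L, hL⟩ : ∃ L, L = lg M (q z : G) := ⟨_, rfl⟩
    rw [← hL] at hw
    have hLu : L.mulVec (∑ j, w (Sum.inr (Sum.inl j)) • u j) = 0 := by
      rw [Matrix.mulVec_sum]
      refine Finset.sum_eq_zero fun j _ => ?_
      rw [Matrix.mulVec_smul, hL, hlu _ (q z).2, smul_zero]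
    have hL3 : L * L * L = 0 := by rw [hL]; exact h.lg3 (q z).2 (q z).2 (q z).2
    have e1 : w (Sum.inl 0) • L.mulVec x + (L * L).mulVec x = 0 := by
      have h2 := congrArg (fun v => L.mulVec v) hw
      beta_reduce at h2
      rw [Matrix.mulVec_add, Matrix.mulVec_add, Matrix.mulVec_smul, hLu, zero_add,
        Matrix.mulVec_mulVec, Matrix.mulVec_zero] at h2
      exact h2
    have e2 : w (Sum.inl 0) • (L * L).mulVec x = 0 := by
      have h2 := congrArg (fun v => L.mulVec v) e1
      beta_reduce at h2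
      rw [Matrix.mulVec_add, Matrix.mulVec_smul, Matrix.mulVec_mulVec, Matrix.mulVec_mulVec,
        ← mul_assoc, hL3, Matrix.zero_mulVec, add_zero, Matrix.mulVec_zero] at h2
      exact h2
    have e3 : z = 0 := by
      rcases smul_eq_zero.1 e2 with h2 | h2
      · rw [h2, zero_smul, zero_add] at e1
        rw [hL] at e1
        exact hz0 z (h.van' (q z).2 e1)
      · rw [hL] at h2
        exact hz0 z (h.van' (q z).2 h2)
    have hL0 : L.mulVec x = 0 := by
      rw [hL, hlq, e3]
      simp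
    rw [hL0, add_zero] at hw
    have e4 : w (Sum.inl 0) = 0 := by
      by_contra hne
      -- the vector x is fixed
      have h2 : ∀ g : h.sub, (lg M (g : G)).mulVec x = 0 := by
        intro g
        have h3 := congrArg (fun v => (lg M (g : G)).mulVec v) hw
        beta_reduce at h3
        rw [Matrix.mulVec_add, Matrix.mulVec_smul, Matrix.mulVec_sum, Matrix.mulVec_zero] at h3
        have h4 : ∑ j, (lg M (g : G)).mulVec (w (Sum.inr (Sum.inl j)) • u j) = 0 := by
          refine Finset.sum_eq_zero fun j _ => ?_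
          rw [Matrix.mulVec_smul, hlu _ g.2, smul_zero]
        rw [h4, add_zero] at h3
        exact (smul_eq_zero.1 h3).resolve_left hne
      have h3 := h.van1 (a ⟨0, hr⟩).2 (h2 _)
      have h4 := (hk _).2 h3
      rw [ha] at h4
      have h5 := congrFun (Multiplicative.ofAdd.injective h4) ⟨0, hr⟩
      simp at h5
    rw [e4, zero_smul, zero_add] at hw
    have e5 := Fintype.linearIndependent_iff.1 hu _ hw
    rintro (i | j | i)
    · rw [Fin.fin_one_eq_zero i]
      exact e4
    · exact e5 j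
    · rw [← hz, e3]
      rfl
  have h1 := hli.fintype_card_le_finrank
  rw [Module.finrank_fin_fun, Fintype.card_sum, Fintype.card_sum, Fintype.card_fin,
    Fintype.card_fin, Fintype.card_fin] at h1
  omega

end

end Run7.h913.SH
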