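import Pool.Agent.Run7.h913.SH.Base
import Pool.Agent.R887.Lin
import Pool.Agent.N110.DV.Defs

/-!
Kodaira's lemma: a divisor with Iitaka dimension `n` is big. If the class of a big divisor is fixed
then the degrees are bounded.
-/

set_option autoImplicit false
set_option linter.overlappingInstances false
set_option linter.unusedSectionVars false

open FF Module MvPolynomial Pool.Agent.W602.GT Pool.Agent.W603.LV
open Pool.Agent.Y172 Pool.Agent.Y191 Pool.Agent.R887
open Pool.Agent.N110 Pool.Agent.N110.RK Pool.Agent.N110.DV Run7.h528.NR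
open scoped ENNReal

namespace Run7.h913.SH

open Run7.h913.ST Pool.Agent.N110.PA Pool.Agent.N110.NV Pool.Agent.N492.PA

section

variable {K : Type} [Field K] [Algebra ℂ K] {N n : ℕ} {y : Fin (N + 1) → K}

/-- **Kodaira's lemma** -/
theorem kodaira (hn : Algebra.trdeg ℂ K = n)
    {i : Fin (N + 1)} (hi : y i ≠ 0) {D : Place ℂ K → ℚ} (hD : IitakaGe y D n) :
    ∃ (k : ℕ) (w : K), 1 ≤ k ∧ w ≠ 0 ∧ ∀ P l, IsPrimeDivisor y P → Centred y l P →
      (P.ord (y i / y l) : ℚ) ≤ P.ord w + k * D P := by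
  classical
  obtain ⟨m, hm, g, hg, hg0, hind⟩ := hD
  obtain ⟨u, hu⟩ : ∃ u : Fin n → K, u = fun i => g i.succ / g 0 := ⟨_, rfl⟩
  rw [← hu] at hind
  have htb : IsTranscendenceBasis ℂ u := hind.isTranscendenceBasis_of_trdeg_le_of_finite (by
    rw [hn, Cardinal.mk_fin])
  have halg : Algebra.IsAlgebraic (Algebra.adjoin ℂ (Set.range u)) K := htb.isAlgebraic
  obtain ⟨a, ha0, ha⟩ := Algebra.IsAlgebraic.exists_integral_multiples
    (Algebra.adjoin ℂ (Set.range u)) (Finset.univ.image fun l : Fin (N + 1) => y l / y i)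
  obtain ⟨μ, hμ⟩ := exists_isMin (k := ℂ) (S := insert (1 : K) (Set.range u))
    ((Set.finite_range u).insert 1) ⟨1, Set.mem_insert _ _, one_ne_zero⟩
  have hint : ∀ l : Fin (N + 1), IsIntegral (Algebra.adjoin ℂ (Set.range u))
      ((a : K) * (y l / y i)) := by
    intro l
    have h1 := ha (y l / y i) (Finset.mem_image_of_mem _ (Finset.mem_univ l))
    rwa [Algebra.smul_def] at h1
  choose e he using fun l => ge_int hμ (hint l)
  obtain ⟨E, hE⟩ : ∃ E : ℕ, E = ∑ l, e l + 1 := ⟨_, rfl⟩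
  have heE : ∀ l, e l ≤ E := fun l => by
    rw [hE]
    exact (Finset.single_le_sum (f := e) (fun _ _ => Nat.zero_le _) (Finset.mem_univ l)).trans
      (Nat.le_succ _)
  have haK : (a : K) ≠ 0 := fun h => ha0 (Subtype.ext h)
  -- the minimum over the sections
  have hmin : ∀ P, IsPrimeDivisor y P → -((m : ℚ) * D P) ≤ P.ord (g 0) + μ P := by
    intro P hP
    obtain ⟨s, hs, hs0, hsμ⟩ := hμ.att P
    rcases Set.mem_insert_iff.1 hs with rfl | ⟨j, rfl⟩
    · rw [P.ord_one] at hsμ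
      rw [← hsμ]
      have h1 := (hg 0 P hP).resolve_left hg0
      rw [Pi.smul_apply, nsmul_eq_mul] at h1
      push_cast
      linarith
    · have h2 : u j = g j.succ / g 0 := by rw [hu]
      have hgj : g j.succ ≠ 0 := by
        intro h3
        rw [h2, h3, zero_div] at hs0
        exact hs0 rfl
      have h1 := (hg j.succ P hP).resolve_left hgj
      rw [Pi.smul_apply, nsmul_eq_mul] at h1
      have h4 : P.ord (g 0) + μ P = P.ord (g j.succ) := by
        rw [← hsμ, ← P.ord_mul hg0 hs0, h2, mul_div_cancel₀ _ hg0]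
      have h5 : (P.ord (g 0) : ℚ) + μ P = P.ord (g j.succ) := by exact_mod_cast h4
      rw [h5]
      exact h1
  refine ⟨E * m, g 0 ^ E * a, ?_, mul_ne_zero (pow_ne_zero _ hg0) haK, fun P l hP hl => ?_⟩
  · have : 1 ≤ E := by omega
    exact Nat.mul_pos this hm
  · have hyl : y l / y i ≠ 0 := div_ne_zero hl.1 hi
    have hz0 : (a : K) * (y l / y i) ≠ 0 := mul_ne_zero haK hyl
    have h1 := (he l P).resolve_left hz0
    have h0 := hμ.nonpos (Set.mem_insert _ _) P
    have h2 : (E : ℤ) * μ P ≤ P.ord ((a : K) * (y l / y i)) := by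
      refine le_trans ?_ h1
      have h3 : (e l : ℤ) ≤ E := by exact_mod_cast heE l
      nlinarith
    rw [P.ord_mul haK hyl] at h2
    have h3 : P.ord (y l / y i) = -P.ord (y i / y l) := by
      rw [← P.ord_inv, inv_div]
    rw [h3] at h2
    have h4 : (E : ℚ) * μ P ≤ P.ord (a : K) + -P.ord (y i / y l) := by exact_mod_cast h2
    have h5 := hmin P hP
    have h6 : (E : ℚ) * -((m : ℚ) * D P) ≤ E * (P.ord (g 0) + μ P) :=
      mul_le_mul_of_nonneg_left h5 (Nat.cast_nonneg _)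
    rw [P.ord_mul (pow_ne_zero _ hg0) haK, P.ord_pow]
    push_cast
    nlinarith

/-- a vector-valued polynomial of degree two with bounded values -/
theorem quad_bdd {ρ : ℕ} {a b q : Fin ρ → ℚ} {B : ℝ}
    (h : ∀ m : ℕ, ‖toR (a + (m : ℚ) • b + ((m : ℚ) ^ 2) • q)‖ ≤ B) : q = 0 := by
  funext l
  by_contra hq
  have h1 : ∀ m : ℕ, |(a l : ℝ) + m * b l + (m : ℝ) ^ 2 * q l| ≤ B := by
    intro m
    have h2 := norm_le_pi_norm (toR (a + (m : ℚ) • b + ((m : ℚ) ^ 2) • q)) l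
    have h3 : toR (a + (m : ℚ) • b + ((m : ℚ) ^ 2) • q) l =
        (a l : ℝ) + m * b l + (m : ℝ) ^ 2 * q l := by
      unfold toR
      rw [Pi.add_apply, Pi.add_apply, Pi.smul_apply, Pi.smul_apply, smul_eq_mul, smul_eq_mul]
      push_cast
      ring
    rw [h3, Real.norm_eq_abs] at h2
    exact h2.trans (h m)
  have hq0 : (0 : ℝ) < |(q l : ℝ)| := by
    rw [abs_pos]
    exact_mod_cast hq
  obtain ⟨m, hm⟩ := exists_nat_gt ((|(a l : ℝ)| + |(b l : ℝ)| + B) / |(q l : ℝ)| + 1)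
  have hB : 0 ≤ B := (abs_nonneg _).trans (h1 0)
  have hm1 : (1 : ℝ) < m := by
    have : 0 ≤ (|(a l : ℝ)| + |(b l : ℝ)| + B) / |(q l : ℝ)| := by positivity
    linarith
  have h2 : (m : ℝ) ^ 2 * |(q l : ℝ)| ≤ B + |(a l : ℝ)| + m * |(b l : ℝ)| := by
    have h3 : (m : ℝ) ^ 2 * q l = ((a l : ℝ) + m * b l + (m : ℝ) ^ 2 * q l) - a l - m * b l := by
      ring
    have h4 : |(m : ℝ) ^ 2 * q l| ≤ B + |(a l : ℝ)| + |m * (b l : ℝ)| := by
      rw [h3]
      refine (abs_sub _ _).trans ?_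
      refine add_le_add ((abs_sub _ _).trans ?_) le_rfl
      exact add_le_add (h1 m) le_rfl
    rw [abs_mul, abs_mul, abs_of_nonneg (by positivity : (0 : ℝ) ≤ (m : ℝ) ^ 2),
      abs_of_nonneg (Nat.cast_nonneg (α := ℝ) m)] at h4
    exact h4
  have h3 : |(a l : ℝ)| + |(b l : ℝ)| + B < (m - 1) * |(q l : ℝ)| := by
    rw [← div_lt_iff₀ hq0]
    linarith
  have h5 : (m : ℝ) * (|(a l : ℝ)| + |(b l : ℝ)| + B) < m * ((m - 1) * |(q l : ℝ)|) :=
    mul_lt_mul_of_pos_left h3 (by linarith)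
  have ha := abs_nonneg (a l : ℝ)
  nlinarith

section pull

variable {ρ : ℕ} {c : Place ℂ K → Fin ρ → ℤ} {G₀ : Type} [Group G₀] {φ : G₀ → (K ≃ₐ[ℂ] K)}

/-- the pull back of a divisor with class zero has class zero -/
theorem pull_zero (hy : NormalModel y) (hc : NumClasses y c)
    (hφ : ∀ u v, φ (u * v) = φ u * φ v) (hps : ∀ g, PseudoAut (φ g) y) {U : Place ℂ K → ℚ}
    (hU : Fin0 y U) (h0 : cls y (cQ c) U = 0) (v : G₀) :
    cls y (cQ c) (fun Q => U (comap (φ v) Q)) = 0 := by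
  obtain ⟨a, D, ha, hD⟩ := clear_denom hU
  have ha0 : (a : ℚ) ≠ 0 := by
    have : (0 : ℚ) < a := by exact_mod_cast ha
    exact this.ne'
  have h1 : cls y (cQ c) (dv D) = (a : ℚ) • cls y (cQ c) U := by
    rw [← cls_smul]
    exact cls_congr fun Q hQ => (hD _ hQ).symm
  rw [h0, smul_zero] at h1
  have h2 : ic c D = 0 := by
    funext j
    have h3 := congrFun h1 j
    rw [cls_dv, Pi.zero_apply] at h3
    rw [Pi.zero_apply]
    exact_mod_cast h3
  have h3 := kernG hy hφ hps hc v D h2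
  rw [← icG_map] at h3
  have h4 : cls y (cQ c) (dv (D.mapDomain (pimG hφ hps v))) =
      (a : ℚ) • cls y (cQ c) (fun Q => U (comap (φ v) Q)) := by
    rw [← cls_smul]
    refine cls_congr fun Q hQ => ?_
    rw [dvG_map hφ hps v D hQ]
    exact (hD _ ((hps v _ _ fun _ => rfl).2 hQ)).symm
  have h5 : cls y (cQ c) (dv (D.mapDomain (pimG hφ hps v))) = 0 := by
    funext j
    rw [cls_dv, h3]
    simp
  rw [h5] at h4
  exact (smul_eq_zero.1 h4.symm).resolve_left ha0

/-- the class of the pull back depends only on the class -/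
theorem pull_congr (hy : NormalModel y) (hc : NumClasses y c)
    (hφ : ∀ u v, φ (u * v) = φ u * φ v) (hps : ∀ g, PseudoAut (φ g) y) {U U' : Place ℂ K → ℚ}
    (hU : Fin0 y U) (hU' : Fin0 y U') (h0 : cls y (cQ c) U = cls y (cQ c) U') (v : G₀) :
    cls y (cQ c) (fun Q => U (comap (φ v) Q)) = cls y (cQ c) (fun Q => U' (comap (φ v) Q)) := by
  have h1 := pull_zero hy hc hφ hps (Fin0.sub hU hU')
    (by rw [cls_sub hU hU', h0, sub_self]) v
  beta_reduce at h1
  rw [cls_sub (fin_comap (hps v) hU) (fin_comap (hps v) hU')] at h1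
  exact sub_eq_zero.1 h1

end pull

/-- **A group element which fixes the class of a big divisor is in the kernel.** -/
theorem big_fixed (hy : NormalModel y) (hn : Algebra.trdeg ℂ K = n) {ρ : ℕ}
    {c : Place ℂ K → Fin ρ → ℤ} (hc : NumClasses y c) {G₀ : Type} [Group G₀]
    {φ : G₀ → (K ≃ₐ[ℂ] K)} (hφ : ∀ u v, φ (u * v) = φ u * φ v) (hps : ∀ g, PseudoAut (φ g) y)
    {r : ℕ} {Φ : G₀ →* Multiplicative (Fin r → ℤ)}
    (hQ : ∀ U : Place ℂ K → ℚ, {P | IsPrimeDivisor y P ∧ U P ≠ 0}.Finite →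
      QuadraticIn y c φ Φ U) {g : G₀} {D : Place ℂ K → ℚ}
    (hDf : {P | IsPrimeDivisor y P ∧ D P ≠ 0}.Finite) (hfix : FixesClass (φ g) y c D)
    (hbig : IitakaGe y D n) : Φ g = 1 := by
  classical
  obtain ⟨i, hi⟩ := hy.ne
  obtain ⟨Hy, hHe, hHP⟩ := exists_hyp hy hi
  obtain ⟨k, w, hk, hw, hkw⟩ := kodaira hn hi hbig
  obtain ⟨A, B, hAf, hB, hpull, -, hpos⟩ := hQ Hy hHe.2
  have hφ1 : φ 1 = 1 := phi_one hφ
  -- powers fix the class of D
  have hpow : ∀ m : ℕ, cls y (cQ c) (fun Q => D (comap (φ (g ^ m)) Q)) = cls y (cQ c) D := by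
    intro m
    induction m with
    | zero =>
      rw [pow_zero, hφ1]
      exact cls_congr fun Q _ => by rw [comap_one]
    | succ m ih =>
      have h1 := pull_congr hy hc hφ hps (fin_comap (hps g) hDf) hDf (fixes_iff.1 hfix) (g ^ m)
      rw [← ih, ← h1]
      refine cls_congr fun Q _ => ?_
      rw [pow_succ, hφ, comap_mul]
  -- the classes of the pull backs of H are bounded
  obtain ⟨c0, hc0, hcb⟩ := salient_bound (closure (effSet y (cQ c))) isClosed_closure
    (fun x hx r hr => clo_smul hx hr) (fun x hx hx' => hc.salient x hx hx')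
  obtain ⟨E, hE⟩ : ∃ E : Place ℂ K → ℚ, ∀ Q, E Q =
    (((Q.ord w : ℤ) : ℚ) + (k : ℚ) * D Q) - Hy Q := ⟨_, fun _ => rfl⟩
  have hfw : ∀ z : K, z ≠ 0 → Fin0 y (fun Q => ((Q.ord z : ℤ) : ℚ)) := by
    intro z hz
    refine (finite_ord hy hz).subset ?_
    rintro P ⟨hP, h1⟩
    refine ⟨hP, fun h2 => h1 ?_⟩
    show ((P.ord z : ℤ) : ℚ) = 0
    rw [h2, Int.cast_zero]
  have hEe : Effective y E := by
    refine ⟨fun Q hQ => ?_, ?_⟩
    · obtain ⟨l, hl⟩ := exists_centred hy Q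
      have h1 := hkw Q l hQ hl
      rw [← hHP Q l hQ hl] at h1
      rw [hE]
      linarith
    · rw [show E = fun Q => (((Q.ord w : ℤ) : ℚ) + (k : ℚ) * D Q) - Hy Q from funext hE]
      exact Fin0.sub (Fin0.add (hfw w hw) (Fin0.smul (y := y) hDf _)) hHe.2
  have hbd : ∀ m : ℕ, ‖toR (cls y (cQ c) (fun Q => Hy (comap (φ (g ^ m)) Q)))‖ ≤
      ‖toR ((k : ℚ) • cls y (cQ c) D)‖ / c0 := by
    intro m
    obtain ⟨v, hv⟩ : ∃ v, v = φ (g ^ m) := ⟨_, rfl⟩
    have hpsv : PseudoAut v y := by rw [hv]; exact hps _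
    have h1 := subset_closure (eff_mem (c := cQ c) (eff_pull hpsv hHe))
    have h2 := subset_closure (eff_mem (c := cQ c) (eff_pull hpsv hEe))
    have hvw : v w ≠ 0 := by rwa [Ne, map_eq_zero]
    have e1 : cls y (cQ c) (fun Q => E (comap v Q)) =
        (k : ℚ) • cls y (cQ c) D - cls y (cQ c) (fun Q => Hy (comap v Q)) := by
      have e2 : cls y (cQ c) (fun Q => E (comap v Q)) = cls y (cQ c) (fun Q =>
          (((Q.ord (v w) : ℤ) : ℚ) + (k : ℚ) * D (comap v Q)) - Hy (comap v Q)) :=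
        cls_congr fun Q _ => by rw [hE, comap_ord]
      have hf2 : Fin0 y (fun Q => (k : ℚ) * D (comap v Q)) :=
        Fin0.smul (y := y) (fin_comap hpsv hDf) _
      rw [e2, cls_sub (Fin0.add (hfw _ hvw) hf2) (fin_comap hpsv hHe.2),
        cls_add (hfw _ hvw) hf2, princG hc hvw, zero_add, cls_smul, hv, hpow m]
    rw [e1] at h2
    have h3 := hcb _ h1 _ h2
    rw [← toR_add, add_sub_cancel] at h3
    rw [← hv, le_div_iff₀ hc0, mul_comm]
    exact h3
  obtain ⟨z, hz⟩ : ∃ z : Fin r → ℤ, z = Multiplicative.toAdd (Φ g) := ⟨_, rfl⟩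
  have hq : quadCls y c B z = 0 := by
    refine quad_bdd (a := cls y (cQ c) Hy)
      (b := ∑ i, (z i : ℚ) • cls y (fun P i => (c P i : ℚ)) (A i)) (fun m => ?_)
      (B := ‖toR ((k : ℚ) • cls y (cQ c) D)‖ / c0)
    have h1 := hbd m
    have h2 := pull_iff.1 (hpull (g ^ m))
    rw [h2] at h1
    have e2 : Multiplicative.toAdd (Φ (g ^ m)) = (m : ℤ) • z := by
      rw [map_pow, toAdd_pow, ← hz, natCast_zsmul]
    have e3 : quadCls y c B ((m : ℤ) • z) = ((m : ℚ) ^ 2) • quadCls y c B z := by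
      unfold quadCls
      rw [Finset.smul_sum]
      refine Finset.sum_congr rfl fun i _ => ?_
      rw [Finset.smul_sum]
      refine Finset.sum_congr rfl fun j _ => ?_
      rw [smul_smul, Pi.smul_apply, Pi.smul_apply, smul_eq_mul, smul_eq_mul]
      push_cast
      congr 1
      ring
    have e4 : ∑ i, (((m : ℤ) • z) i : ℚ) • cls y (fun P i => (c P i : ℚ)) (A i) =
        (m : ℚ) • ∑ i, (z i : ℚ) • cls y (fun P i => (c P i : ℚ)) (A i) := by
      rw [Finset.smul_sum]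
      refine Finset.sum_congr rfl fun i _ => ?_
      rw [smul_smul, Pi.smul_apply, smul_eq_mul]
      push_cast
      rfl
    rw [e2, e3, e4] at h1
    exact h1
  have h0 := hpos i hi hHP z hq
  rw [hz] at h0
  exact h0

end

end Run7.h913.SH
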