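import Pool.Agent.Run7.h913.ST.Geo
import Pool.Agent.Run7.h913.SH.PAlg

/-!
Degrees of isomorphisms in codimension one and integral matrices: the theorem `matS` with the
coordinates of all classes.
-/

set_option autoImplicit false
set_option linter.unusedSectionVars false
set_option linter.unusedVariables false

open FF Pool.Agent.W602.GT Pool.Agent.Y172 Pool.Agent.R887

namespace Run7.h913.SH

open Pool.Agent.N110 Pool.Agent.N110.PA Pool.Agent.N110.NV Pool.Agent.N492.PA Run7.h528.NR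
open Run7.h913.ST Matrix

noncomputable section

/-- The degrees of the elements of a group of isomorphisms in codimension one are comparable to the
norms of integral matrices; and the matrices are bounded by the sum of the images of a vector under
the matrix and its inverse. -/
theorem matS2 {K : Type} [Field K] [Algebra ℂ K] {N n : ℕ} {y : Fin (N + 1) → K}
    (hy : NormalModel y) (hn : Algebra.trdeg ℂ K = n) (h0 : 0 < n) {ρ : ℕ}
    {c : Place ℂ K → Fin ρ → ℤ} (hc : NumClasses y c)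
    {G : Type} [Group G] {φ : G → (K ≃ₐ[ℂ] K)} (h : ∀ u v, φ (u * v) = φ u * φ v)
    (hps : ∀ v, PseudoAut (φ v) y) :
    ∃ (ρ' : ℕ) (M : G → Matrix (Fin ρ') (Fin ρ') ℤ) (x : Fin ρ' → ℤ) (C : ℝ)
      (R : (QQ y →₀ ℤ) → Fin ρ' → ℤ) (B : Fin ρ' → Fin ρ → ℤ), LinearIndependent ℤ B ∧
      (∀ v D, R (D.mapDomain (pimG h hps v)) = (M v).mulVec (R D)) ∧
      (∀ D : QQ y →₀ ℤ, ic c D = ∑ j, R D j • B j) ∧ Function.Surjective R ∧
      (∀ (D : QQ y →₀ ℤ) (i : Fin (N + 1)), y i ≠ 0 → (∀ P l, IsPrimeDivisor y P →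
        Centred y l P → dv D P = P.ord (y i / y l)) → R D = x) ∧ ρ' ≤ ρ ∧ 0 < C ∧
      M 1 = 1 ∧ (∀ u v, M (u * v) = M u * M v) ∧
      (∀ v, mixedDegree (φ v) y n 1 ≤ ENNReal.ofReal (C * (nr (im (M v)) + 1))) ∧
      (∀ v (D : ℕ), mixedDegree (φ v) y n 1 ≤ D → nr (im (M v)) ≤ C * D) ∧
      (∀ v, nr (im (M v)) ≤ C * nv ((im (M v + M v⁻¹)).mulVec (iv x))) ∧
      ∀ v, M v = 1 → ∀ P, IsPrimeDivisor y P → c (comap (φ v⁻¹) P) = c P := by
  classical
  have hUp : S_Up := Pool.Agent.N273.PA.up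
  have hLow : S_Low := Pool.Agent.N769.PA.low
  obtain ⟨i, hi⟩ := hy.ne
  obtain ⟨Hy, hHe, hH⟩ := exists_hyp hy hi
  obtain ⟨HF, hHF⟩ := hyfin hy hHe hH
  obtain ⟨ρ', M, F, R, B, C0, hBli, hRs, hρ, hR, hRB, hC0, hM0, hM, h3, h4, h5⟩ := algS2 (QQ y) ρ G
    (fun P => c P.1) (pimG h hps) (pimG_mul h hps) (fun v D hD => kernG hy h hps hc v D hD)
  obtain ⟨CU, hCU, hUb⟩ := upperG hUp hy hn h0 hi hHe hH hc h hps hC0 h4 h5
  choose CL hCL hLb using fun P0 : QQ y => lowerG hLow hy hn h0 hi hHe hH hc h hps P0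
  choose CS hCS hSb using fun P0 : QQ y => sal_prime hy hi hHe hH hc h hps hHF P0
  have hS : 0 ≤ ∑ P ∈ F, CL P := Finset.sum_nonneg fun P _ => hCL P
  have hS' : 0 ≤ ∑ P ∈ F, CS P := Finset.sum_nonneg fun P _ => hCS P
  obtain ⟨b, hb⟩ : ∃ b : ℝ, b = ∑ j, ∑ k, |(B j k : ℝ)| := ⟨_, rfl⟩
  have hb0 : 0 ≤ b := by
    rw [hb]
    exact Finset.sum_nonneg fun _ _ => Finset.sum_nonneg fun _ _ => abs_nonneg _
  obtain ⟨C, hC⟩ : ∃ C : ℝ, C = CU + C0 * (∑ P ∈ F, CL P) + C0 * ((∑ P ∈ F, CS P) * b) + 1 :=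
    ⟨_, rfl⟩
  have g1 : 0 ≤ C0 * (∑ P ∈ F, CL P) := by positivity
  have g2 : 0 ≤ C0 * ((∑ P ∈ F, CS P) * b) := by positivity
  have hinj : ∀ z z' : Fin ρ' → ℤ, ∑ j, z j • B j = ∑ j, z' j • B j → z = z' := by
    intro z z' hz
    have h1 : ∑ j, (z j - z' j) • B j = 0 := by
      simp only [sub_smul]
      rw [Finset.sum_sub_distrib, hz, sub_self]
    have h2 := Fintype.linearIndependent_iff.1 hBli _ h1
    funext j
    exact sub_eq_zero.1 (h2 j)
  have hx : ∀ (D : QQ y →₀ ℤ) (i' : Fin (N + 1)), y i' ≠ 0 → (∀ P l, IsPrimeDivisor y P →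
      Centred y l P → dv D P = P.ord (y i' / y l)) → R D = R HF := by
    intro D i' hi' hD
    refine hinj _ _ ?_
    have e0 : y i' / y i ≠ 0 := div_ne_zero hi' hi
    have hf1 : Fin0 y (fun P => ((P.ord (y i' / y i) : ℤ) : ℚ)) := by
      refine (finite_ord hy e0).subset ?_
      rintro P ⟨hP, h1⟩
      refine ⟨hP, fun h2 => h1 ?_⟩
      show ((P.ord (y i' / y i) : ℤ) : ℚ) = 0
      rw [h2, Int.cast_zero]
    have e1 : cls y (cQ c) (dv D) = cls y (cQ c) (dv HF) := by
      have e2 : cls y (cQ c) (dv D) =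
          cls y (cQ c) (fun P => ((P.ord (y i' / y i) : ℤ) : ℚ) + dv HF P) := by
        refine cls_congr fun P hP => ?_
        obtain ⟨l, hl⟩ := exists_centred hy P
        rw [hD P l hP hl, ← hHF P hP, hH P l hP hl]
        have e3 : y i' / y l = y i' / y i * (y i / y l) := by
          have := hl.1
          field_simp
        rw [e3, P.ord_mul e0 (div_ne_zero hi hl.1)]
        push_cast
        ring
      rw [e2, cls_add hf1 (dv_fin HF), princG hc e0, zero_add]
    have e4 : ic c D = ic c HF := by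
      funext j
      have e5 := congrFun e1 j
      rw [cls_dv, cls_dv] at e5
      exact_mod_cast e5
    rw [← hRB, ← hRB]
    exact e4
  refine ⟨ρ', M, R HF, C, R, B, hBli, hR, hRB, hRs, hx, hρ, by rw [hC]; positivity, hM0, hM,
    fun v => ?_, fun v D hD => ?_,
    fun v => ?_, fun v hv P hP => ?_⟩
  · refine (hUb v).trans (ENNReal.ofReal_le_ofReal ?_)
    refine mul_le_mul_of_nonneg_right ?_ (add_nonneg (nr_nonneg _) zero_le_one)
    rw [hC]
    linarith
  · refine (h3 v).trans ?_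
    have e1 : ∑ P ∈ F, ∑ i, |(c (pimG h hps v P).1 i : ℝ)| ≤ (∑ P ∈ F, CL P) * D := by
      rw [Finset.sum_mul]
      exact Finset.sum_le_sum fun P _ => hLb P v D hD
    refine (mul_le_mul_of_nonneg_left e1 hC0.le).trans ?_
    rw [← mul_assoc]
    refine mul_le_mul_of_nonneg_right ?_ (Nat.cast_nonneg _)
    rw [hC]
    linarith
  · refine (h3 v).trans ?_
    obtain ⟨S, hSdef⟩ : ∃ S, S = ‖rc c (HF.mapDomain (pimG h hps v)) +
        rc c (HF.mapDomain (pimG h hps v⁻¹))‖ := ⟨_, rfl⟩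
    have hS0 : 0 ≤ S := by rw [hSdef]; exact norm_nonneg _
    have e1 : ∑ P ∈ F, ∑ i, |(c (pimG h hps v P).1 i : ℝ)| ≤ (∑ P ∈ F, CS P) * S := by
      rw [Finset.sum_mul, hSdef]
      exact Finset.sum_le_sum fun P _ => hSb P v
    have e2 : S ≤ b * nv ((im (M v + M v⁻¹)).mulVec (iv (R HF))) := by
      rw [hSdef]
      refine (pi_norm_le_iff_of_nonneg (mul_nonneg hb0 (nv_nonneg _))).2 fun k => ?_
      have e3 : ∀ v, rc c (HF.mapDomain (pimG h hps v)) k =
          ∑ j, ((((M v).mulVec (R HF)) j : ℤ) : ℝ) * (B j k : ℝ) := by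
        intro v
        rw [rc_apply]
        have e4 : ic c (HF.mapDomain (pimG h hps v)) =
            ∑ j, R (HF.mapDomain (pimG h hps v)) j • B j := hRB _
        rw [e4, hR, Finset.sum_apply]
        push_cast
        exact Finset.sum_congr rfl fun j _ => by rw [Pi.smul_apply, smul_eq_mul]; push_cast; rfl
      rw [Pi.add_apply, e3, e3, ← Finset.sum_add_distrib, Real.norm_eq_abs]
      refine (Finset.abs_sum_le_sum_abs _ _).trans ?_
      rw [hb, Finset.sum_mul]
      refine Finset.sum_le_sum fun j _ => ?_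
      rw [← add_mul, abs_mul, mul_comm]
      have e5 : ((((M v).mulVec (R HF)) j : ℤ) : ℝ) + ((((M v⁻¹).mulVec (R HF)) j : ℤ) : ℝ) =
          ((im (M v + M v⁻¹)).mulVec (iv (R HF))) j := by
        rw [im_mulVec, Matrix.add_mulVec]
        unfold iv
        rw [Pi.add_apply]
        push_cast
        rfl
      rw [e5]
      exact mul_le_mul (Finset.single_le_sum (f := fun k => |(B j k : ℝ)|)
        (fun _ _ => abs_nonneg _) (Finset.mem_univ k)) (ventry_le _ j) (abs_nonneg _)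
        (Finset.sum_nonneg fun _ _ => abs_nonneg _)
    refine (mul_le_mul_of_nonneg_left (e1.trans (mul_le_mul_of_nonneg_left e2 hS')) hC0.le).trans ?_
    rw [← mul_assoc (∑ P ∈ F, CS P), ← mul_assoc]
    refine mul_le_mul_of_nonneg_right ?_ (nv_nonneg _)
    rw [hC]
    linarith
  · have e1 := hRB ((Finsupp.single (⟨P, hP⟩ : QQ y) 1).mapDomain (pimG h hps v))
    have e2 := hRB (Finsupp.single (⟨P, hP⟩ : QQ y) 1)
    rw [hR, hv, Matrix.one_mulVec, ← e2, Finsupp.mapDomain_single,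
      Finsupp.sum_single_index (by rw [zero_smul]), Finsupp.sum_single_index (by rw [zero_smul]),
      one_smul, one_smul] at e1
    exact e1

end

end Run7.h913.SH
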