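import Pool.Agent.Run7.h913.SH.Fix

/-!
Groups of integral matrices with quadratic growth: on a subgroup of finite index the matrices are
polynomials of degree two in the coordinates of a homomorphism onto `ℤ ^ r`.
-/

set_option autoImplicit false

open Matrix Module

namespace Run7.h913.SH

open Run7.h913.ST

section

variable {ρ : ℕ} {G : Type} [Group G] {M : G → Matrix (Fin ρ) (Fin ρ) ℤ} {x : Fin ρ → ℤ} {C : ℝ}

theorem eight (h : Sys M x C) {g : G} (hg : g ∈ h.sub) :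
    (8 : ℤ) • M g = (8 : ℤ) • (1 : Matrix (Fin ρ) (Fin ρ) ℤ) + (4 : ℤ) • lg M g +
      lg M g * lg M g := by
  rw [h.lg_sq hg]
  unfold lg
  obtain ⟨a, ha⟩ : ∃ a, a = M g - 1 := ⟨_, rfl⟩
  have e : M g = 1 + a := by rw [ha]; abel
  rw [← ha, e]
  simp only [smul_add, smul_sub]
  abel

theorem lg_comm (h : Sys M x C) {g k : G} (hg : g ∈ h.sub) (hk : k ∈ h.sub) :
    lg M g * lg M k = lg M k * lg M g := by
  have key : ∀ {g k : G}, g ∈ h.sub → k ∈ h.sub →
      lg M g * lg M k = (4 : ℤ) • ((M g - 1) * (M k - 1)) := by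
    intro g k hg hk
    obtain ⟨a, ha⟩ : ∃ a, a = M g - 1 := ⟨_, rfl⟩
    obtain ⟨b, hb⟩ : ∃ b, b = M k - 1 := ⟨_, rfl⟩
    unfold lg
    rw [← ha, ← hb]
    have t1 : a * a * b = 0 := by rw [ha, hb]; exact h.triple hg hg hk
    have t2 : a * b * b = 0 := by rw [ha, hb]; exact h.triple hg hk hk
    have e : (a + a - a * a) * (b + b - b * b) = (4 : ℤ) • (a * b) - (2 : ℤ) • (a * b * b) -
        (2 : ℤ) • (a * a * b) + (a * a * b) * b := by noncomm_ring
    rw [e, t1, t2]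
    simp
  rw [key hg hk, key hk hg, h.comm hg hk]

theorem lg_fix (h : Sys M x C) {g k l : G} (hg : g ∈ h.sub) (hk : k ∈ h.sub) (hl : l ∈ h.sub) :
    M g * (lg M k * lg M l) = lg M k * lg M l := by
  obtain ⟨a, ha⟩ : ∃ a, a = M g - 1 := ⟨_, rfl⟩
  have e : M g = 1 + a := by rw [ha]; abel
  have t : a * (lg M k * lg M l) = 0 := by
    obtain ⟨b, hb⟩ : ∃ b, b = M k - 1 := ⟨_, rfl⟩
    obtain ⟨c, hc⟩ : ∃ c, c = M l - 1 := ⟨_, rfl⟩
    unfold lg
    rw [← hb, ← hc]
    have t1 : a * b * c = 0 := by rw [ha, hb, hc]; exact h.triple hg hk hl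
    have t2 : a * b * b = 0 := by rw [ha, hb]; exact h.triple hg hk hk
    have e : a * ((b + b - b * b) * (c + c - c * c)) = (4 : ℤ) • (a * b * c) -
        (2 : ℤ) • ((a * b * c) * c) - (2 : ℤ) • ((a * b * b) * c) + (a * b * b) * c * c := by
      noncomm_ring
    rw [e, t1, t2]
    simp
  rw [e, add_mul, one_mul, t, add_zero]

/-- **The matrices are polynomials of degree two.** -/
theorem quad_form (h : Sys M x C) {r : ℕ} {Φ : h.sub →* Multiplicative (Fin r → ℤ)}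
    (hs : Function.Surjective Φ) (hk : ∀ g : h.sub, Φ g = 1 ↔ M g = 1) :
    ∃ W : Fin r → Matrix (Fin ρ) (Fin ρ) ℤ,
      (∀ g : h.sub, (8 : ℤ) • M (g : G) = (8 : ℤ) • (1 : Matrix (Fin ρ) (Fin ρ) ℤ) +
        (4 : ℤ) • (∑ i, Multiplicative.toAdd (Φ g) i • W i) +
        ∑ i, ∑ j, (Multiplicative.toAdd (Φ g) i * Multiplicative.toAdd (Φ g) j) • (W i * W j)) ∧
      (∀ (g : h.sub) (i j : Fin r), M (g : G) * (W i * W j) = W i * W j) ∧
      (∀ i j : Fin r, W i * W j = W j * W i) ∧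
      ∀ z : Fin r → ℤ, (∑ i, ∑ j, (z i * z j) • (W i * W j)).mulVec x = 0 → z = 0 := by
  classical
  choose a ha using fun i : Fin r => hs (Multiplicative.ofAdd (Pi.single i (1 : ℤ)))
  obtain ⟨q, hq⟩ : ∃ q : (Fin r → ℤ) → h.sub, ∀ z, q z = (List.ofFn fun i => a i ^ z i).prod :=
    ⟨_, fun _ => rfl⟩
  have hΦq : ∀ z, Φ (q z) = Multiplicative.ofAdd z := by
    intro z
    refine Multiplicative.toAdd.injective ?_
    rw [hq, hom_pr]
    simp only [ha, toAdd_ofAdd]
    funext j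
    rw [Finset.sum_apply]
    simp [Pi.single_apply]
  have hlq : ∀ z, lg M (q z : G) = ∑ i, z i • lg M (a i : G) := by
    intro z
    have h1 := hom_pr h.lgH a z
    rw [← hq] at h1
    exact h1
  have hl : ∀ g : h.sub, lg M (g : G) = ∑ i, Multiplicative.toAdd (Φ g) i • lg M (a i : G) := by
    intro g
    rw [← hlq]
    obtain ⟨k, hk'⟩ : ∃ k, k = q (Multiplicative.toAdd (Φ g)) := ⟨_, rfl⟩
    rw [← hk']
    have h1 : Φ (g * k⁻¹) = 1 := by
      rw [map_mul, map_inv, hk', hΦq, ofAdd_toAdd, mul_inv_cancel]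
    have h2 := (hk _).1 h1
    have h3 : lg M ((g * k⁻¹ : h.sub) : G) = 0 := by
      unfold lg
      rw [h2]
      simp
    have h4 := h.lg_mul (g * k⁻¹).2 k.2
    rw [← Subgroup.coe_mul, inv_mul_cancel_right, h3, zero_add] at h4
    exact h4
  have hsq : ∀ z : Fin r → ℤ, (∑ i, z i • lg M (a i : G)) * (∑ i, z i • lg M (a i : G)) =
      ∑ i, ∑ j, (z i * z j) • (lg M (a i : G) * lg M (a j : G)) := by
    intro z
    rw [Finset.sum_mul_sum]
    refine Finset.sum_congr rfl fun i _ => Finset.sum_congr rfl fun j _ => ?_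
    rw [smul_mul_smul_comm]
  refine ⟨fun i => lg M (a i : G), fun g => ?_, fun g i j => lg_fix h g.2 (a i).2 (a j).2,
    fun i j => lg_comm h (a i).2 (a j).2, fun z hz => ?_⟩
  · rw [eight h g.2, hl g, hsq]
  · rw [← hsq, ← hlq] at hz
    have h1 := (hk _).2 (h.van' (q z).2 hz)
    rw [hΦq] at h1
    exact Multiplicative.ofAdd.injective h1

end

end Run7.h913.SH
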