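import Pool.Agent.Run7.h913.SH.Kod
import Pool.Agent.Run7.h913.SH.Mat
import Pool.Agent.Run7.h913.SH.Quad
import Pool.Agent.Run7.h913.SH.Defs
import Pool.Agent.Run7.h913.ST.Fin

/-!
The structure of the groups of isomorphisms in codimension one whose degrees grow at most
quadratically in the word length: divisors whose classes have bounded orbits have fixed classes, and
the rank.
-/

set_option autoImplicit false
set_option linter.overlappingInstances false
set_option linter.unusedSectionVars false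

open FF Module MvPolynomial Pool.Agent.W602.GT Pool.Agent.W603.LV
open Pool.Agent.Y172 Pool.Agent.Y191 Pool.Agent.R887
open Pool.Agent.N110 Pool.Agent.N110.RK Pool.Agent.N110.DV Run7.h528.NR
open scoped ENNReal

namespace Run7.h913.SH

open Run7.h913.ST Pool.Agent.N110.PA Pool.Agent.N110.NV Pool.Agent.N492.PA

section

variable {K : Type} [Field K] [Algebra ℂ K] {N n : ℕ} {y : Fin (N + 1) → K}

/-- **The structure theorem**, with fixed classes. -/
theorem st_main (hy : NormalModel y) (hn : Algebra.trdeg ℂ K = n) (hn0 : 0 < n)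
    {i : Fin (N + 1)} (hi : y i ≠ 0) {ρ : ℕ} {c : Place ℂ K → Fin ρ → ℤ} (hc : NumClasses y c)
    (G : Subgroup (K ≃ₐ[ℂ] K)) (hps : ∀ g ∈ G, PseudoAut g y) (hQ : Quadr hy hi n G)
    {S : Set (Place ℂ K → ℚ)}
    (hS : ∀ U ∈ S, Fin0 y U ∧ ∃ B : ℝ, ∀ v : G,
      ‖toR (cls y (cQ c) (fun Q => U (comap (v : K ≃ₐ[ℂ] K) Q)))‖ ≤ B) :
    MordellWeilOver y n c S G := by
  classical
  have hmul : ∀ u v : G, ((u * v : G) : K ≃ₐ[ℂ] K) = (u : K ≃ₐ[ℂ] K) * (v : K ≃ₐ[ℂ] K) :=
    fun _ _ => rfl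
  have hpsG : ∀ v : G, PseudoAut (v : K ≃ₐ[ℂ] K) y := fun v => hps v v.2
  obtain ⟨ρ', M, x, C, R, B, hB, hR, hRB, hRs, hRx, hρ, hC, hM1, hM, hup, hlow, hsal, hker⟩ :=
    matS2 hy hn hn0 hc (G := G) (φ := fun g => (g : K ≃ₐ[ℂ] K)) hmul hpsG
  have hdl : ∀ g : G, nr (im (M g)) ≤ C * dg hy hi n (g : K ≃ₐ[ℂ] K) := by
    intro g
    obtain ⟨D, hD1, hD2⟩ := dg_nat hy hn hn0 hi (g : K ≃ₐ[ℂ] K)
    rw [hD1]
    exact hlow g D hD2.le
  have hdu : ∀ g : G, dg hy hi n (g : K ≃ₐ[ℂ] K) ≤ C * (nr (im (M g)) + 1) := by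
    intro g
    have h5 := hup g
    rw [md_dg hy hn hn0 hi] at h5
    exact (ENNReal.ofReal_le_ofReal_iff (mul_nonneg hC.le (add_nonneg (nr_nonneg _)
      zero_le_one))).1 h5
  have hSys : Sys M x C := by
    refine ⟨hM1, hM, hC.le, hsal, fun T => ?_⟩
    obtain ⟨C', hC'⟩ := hQ T
    refine ⟨C * C', fun w hw hT => (hdl _).trans ?_⟩
    rw [mul_assoc]
    exact mul_le_mul_of_nonneg_left (hC' w hw hT) hC.le
  obtain ⟨r, Φ, C', hC', hsur, hr, hk, hb⟩ := hSys.struct
  -- injectivity of the coordinates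
  have hinj : Function.Injective fun z : Fin ρ' → ℤ => ∑ j, z j • B j := by
    intro z z' hz
    beta_reduce at hz
    have h1 : ∑ j, (z j - z' j) • B j = 0 := by
      simp only [sub_smul]
      rw [Finset.sum_sub_distrib, hz, sub_self]
    have h2 := Fintype.linearIndependent_iff.1 hB _ h1
    funext j
    exact sub_eq_zero.1 (h2 j)
  -- classes
  have hcl : ∀ (U : Place ℂ K → ℚ) (a : ℕ) (D : QQ y →₀ ℤ),
      (∀ P, IsPrimeDivisor y P → (a : ℚ) * U P = dv D P) → ∀ v : G,
      cls y (cQ c) (dv (D.mapDomain (pimG (φ := fun g : G => (g : K ≃ₐ[ℂ] K)) hmul hpsG v))) =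
        (a : ℚ) • cls y (cQ c) (fun Q => U (comap (v : K ≃ₐ[ℂ] K) Q)) := by
    intro U a D hD v
    rw [← cls_smul]
    refine cls_congr fun Q hQ => ?_
    rw [dvG_map hmul hpsG v D hQ]
    exact (hD _ ((hpsG v _ _ fun _ => rfl).2 hQ)).symm
  have hcl0 : ∀ (U : Place ℂ K → ℚ) (a : ℕ) (D : QQ y →₀ ℤ),
      (∀ P, IsPrimeDivisor y P → (a : ℚ) * U P = dv D P) →
      cls y (cQ c) (dv D) = (a : ℚ) • cls y (cQ c) U := by
    intro U a D hD
    rw [← cls_smul]
    exact cls_congr fun Q hQ => (hD _ hQ).symm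
  -- the vector of a divisor is fixed if and only if its class is fixed
  have hfix : ∀ (U : Place ℂ K → ℚ) (a : ℕ) (D : QQ y →₀ ℤ), 1 ≤ a →
      (∀ P, IsPrimeDivisor y P → (a : ℚ) * U P = dv D P) → ∀ v : G,
      (FixesClass (v : K ≃ₐ[ℂ] K) y c U ↔ (M v).mulVec (R D) = R D) := by
    intro U a D ha hD v
    have ha0 : (a : ℚ) ≠ 0 := by
      have : (0 : ℚ) < a := by exact_mod_cast ha
      exact this.ne'
    rw [fixes_iff]
    have e1 : (cls y (cQ c) (fun Q => U (comap (v : K ≃ₐ[ℂ] K) Q)) = cls y (cQ c) U) ↔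
        ic c (D.mapDomain (pimG (φ := fun g : G => (g : K ≃ₐ[ℂ] K)) hmul hpsG v)) = ic c D := by
      constructor
      · intro h1
        have h2 : cls y (cQ c) (dv (D.mapDomain
            (pimG (φ := fun g : G => (g : K ≃ₐ[ℂ] K)) hmul hpsG v))) = cls y (cQ c) (dv D) := by
          rw [hcl U a D hD, hcl0 U a D hD, h1]
        funext j
        have h3 := congrFun h2 j
        rw [cls_dv, cls_dv] at h3
        exact_mod_cast h3
      · intro h1
        have h2 : cls y (cQ c) (dv (D.mapDomain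
            (pimG (φ := fun g : G => (g : K ≃ₐ[ℂ] K)) hmul hpsG v))) = cls y (cQ c) (dv D) := by
          funext j
          rw [cls_dv, cls_dv, h1]
        rw [hcl U a D hD, hcl0 U a D hD] at h2
        exact smul_right_injective _ ha0 h2
    rw [e1, ← hR]
    constructor
    · intro h1
      refine hinj ?_
      beta_reduce
      rw [← hRB, ← hRB]
      exact h1
    · intro h1
      rw [hRB, hRB, h1]
  -- boundedness
  have hbdd : ∀ (U : Place ℂ K → ℚ) (a : ℕ) (D : QQ y →₀ ℤ), 1 ≤ a →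
      (∀ P, IsPrimeDivisor y P → (a : ℚ) * U P = dv D P) →
      (∃ B : ℝ, ∀ v : G, ‖toR (cls y (cQ c) (fun Q => U (comap (v : K ≃ₐ[ℂ] K) Q)))‖ ≤ B) →
      ∃ B' : ℝ, ∀ v : G, nv (iv ((M v).mulVec (R D))) ≤ B' := by
    rintro U a D ha hD ⟨B1, hB1⟩
    obtain ⟨b, hb'⟩ := exists_nat_ge ((a : ℝ) * B1)
    have hfin : ({z : Fin ρ' → ℤ | (∑ j, z j • B j) ∈
        Set.Icc (fun _ : Fin ρ => -(b : ℤ)) (fun _ => (b : ℤ))}).Finite :=
      (Set.finite_Icc (fun _ : Fin ρ => -(b : ℤ)) (fun _ => (b : ℤ))).preimage hinj.injOn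
    obtain ⟨B', hB'⟩ := (hfin.image fun z => nv (iv z)).bddAbove
    refine ⟨B', fun v => hB' ⟨_, ?_, rfl⟩⟩
    rw [← hR]
    rw [Set.mem_ofPred_eq, ← hRB]
    have h2 : ∀ j, |((ic c (D.mapDomain
        (pimG (φ := fun g : G => (g : K ≃ₐ[ℂ] K)) hmul hpsG v)) j : ℤ) : ℝ)| ≤ b := by
      intro j
      have h3 := hcl U a D hD v
      have h4 := congrFun h3 j
      rw [cls_dv] at h4
      have h5 : ((ic c (D.mapDomain
          (pimG (φ := fun g : G => (g : K ≃ₐ[ℂ] K)) hmul hpsG v)) j : ℤ) : ℝ) =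
          (a : ℝ) * toR (cls y (cQ c) (fun Q => U (comap (v : K ≃ₐ[ℂ] K) Q))) j := by
        have h6 : ((ic c (D.mapDomain
          (pimG (φ := fun g : G => (g : K ≃ₐ[ℂ] K)) hmul hpsG v)) j : ℤ) : ℚ) =
          (a : ℚ) * cls y (cQ c) (fun Q => U (comap (v : K ≃ₐ[ℂ] K) Q)) j := h4
        unfold toR
        exact_mod_cast congrArg (fun q : ℚ => (q : ℝ)) h6
      rw [h5, abs_mul, abs_of_nonneg (Nat.cast_nonneg (α := ℝ) a)]
      refine le_trans ?_ hb'
      refine mul_le_mul_of_nonneg_left ?_ (Nat.cast_nonneg _)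
      have h6 := norm_le_pi_norm (toR (cls y (cQ c) (fun Q => U (comap (v : K ≃ₐ[ℂ] K) Q)))) j
      rw [Real.norm_eq_abs] at h6
      exact h6.trans (hB1 v)
    have h3 : ∀ j, |ic c (D.mapDomain
        (pimG (φ := fun g : G => (g : K ≃ₐ[ℂ] K)) hmul hpsG v)) j| ≤ (b : ℤ) := by
      intro j
      have := h2 j
      exact_mod_cast this
    exact ⟨fun j => (abs_le.1 (h3 j)).1, fun j => (abs_le.1 (h3 j)).2⟩
  have hQuad : ∀ U : Place ℂ K → ℚ, {P | IsPrimeDivisor y P ∧ U P ≠ 0}.Finite →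
      QuadraticIn y c (fun g : hSys.sub => ((g : G) : K ≃ₐ[ℂ] K)) Φ U := by
    intro U hU
    -- the quadratic form
    obtain ⟨W, hW8, hWf, hWc, hWx⟩ := quad_form hSys hsur hk
    obtain ⟨a, D, ha, hD⟩ := clear_denom hU
    have ha0 : (0 : ℚ) < a := by exact_mod_cast ha
    choose D1 hD1 using fun i => hRs ((W i).mulVec (R D))
    choose D2 hD2 using fun i j => hRs ((W i * W j).mulVec (R D))
    obtain ⟨A, hA⟩ : ∃ A : Fin r → Place ℂ K → ℚ, ∀ i P, A i P = (1 / (2 * a)) * dv (D1 i) P :=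
      ⟨_, fun _ _ => rfl⟩
    obtain ⟨E, hE⟩ : ∃ E : Fin r → Fin r → Place ℂ K → ℚ,
      ∀ i j P, E i j P = (1 / (8 * a)) * dv (D2 i j) P := ⟨_, fun _ _ _ => rfl⟩
    have hAf : ∀ i, Fin0 y (A i) := fun i => by
      rw [show A i = fun P => (1 / (2 * a)) * dv (D1 i) P from funext (hA i)]
      exact Fin0.smul (y := y) (dv_fin _) _
    have hEf : ∀ i j, Fin0 y (E i j) := fun i j => by
      rw [show E i j = fun P => (1 / (8 * a)) * dv (D2 i j) P from funext (hE i j)]
      exact Fin0.smul (y := y) (dv_fin _) _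
    have hAc : ∀ i l, cls y (cQ c) (A i) l = (1 / (2 * a)) * (ic c (D1 i) l : ℚ) := fun i l => by
      rw [show A i = fun P => (1 / (2 * a)) * dv (D1 i) P from funext (hA i), cls_smul,
        Pi.smul_apply, cls_dv, smul_eq_mul]
    have hEc : ∀ i j l, cls y (cQ c) (E i j) l = (1 / (8 * a)) * (ic c (D2 i j) l : ℚ) :=
      fun i j l => by
        rw [show E i j = fun P => (1 / (8 * a)) * dv (D2 i j) P from funext (hE i j), cls_smul,
          Pi.smul_apply, cls_dv, smul_eq_mul]
    -- the linear map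
    obtain ⟨β, hβ⟩ : ∃ β : (Fin ρ' → ℤ) →+ (Fin ρ → ℤ), ∀ z, β z = ∑ j, z j • B j :=
      ⟨AddMonoidHom.mk' (fun z => ∑ j, z j • B j) fun z z' => by
        rw [← Finset.sum_add_distrib]
        exact Finset.sum_congr rfl fun j _ => by rw [Pi.add_apply, add_smul], fun _ => rfl⟩
    have hβR : ∀ D : QQ y →₀ ℤ, ic c D = β (R D) := fun D => by rw [hβ, hRB]
    have hquad : ∀ z : Fin r → ℤ, ∀ l, quadCls y c E z l =
        (1 / (8 * a)) * ((β ((∑ i, ∑ j, (z i * z j) • (W i * W j)).mulVec (R D)) l : ℤ) : ℚ) := by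
      intro z l
      have e1 : β ((∑ i, ∑ j, (z i * z j) • (W i * W j)).mulVec (R D)) =
          ∑ i, ∑ j, (z i * z j) • ic c (D2 i j) := by
        rw [Matrix.sum_mulVec, map_sum]
        refine Finset.sum_congr rfl fun i _ => ?_
        rw [Matrix.sum_mulVec, map_sum]
        refine Finset.sum_congr rfl fun j _ => ?_
        rw [Matrix.smul_mulVec, map_zsmul, hβR, hD2]
      rw [e1]
      unfold quadCls
      rw [Finset.sum_apply, Finset.sum_apply, Int.cast_sum, Finset.mul_sum]
      refine Finset.sum_congr rfl fun i _ => ?_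
      rw [Finset.sum_apply, Finset.sum_apply, Int.cast_sum, Finset.mul_sum]
      refine Finset.sum_congr rfl fun j _ => ?_
      have e2 := hEc i j l
      rw [Pi.smul_apply, Pi.smul_apply, smul_eq_mul, smul_eq_mul,
        show cls y (fun P i => (c P i : ℚ)) (E i j) l = _ from e2]
      push_cast
      ring
    have hpull : ∀ g : hSys.sub, cls y (cQ c) (fun Q => U (comap ((g : G) : K ≃ₐ[ℂ] K) Q)) =
        cls y (fun P i => (c P i : ℚ)) U +
        ∑ i, (Multiplicative.toAdd (Φ g) i : ℚ) • cls y (fun P i => (c P i : ℚ)) (A i) +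
        quadCls y c E (Multiplicative.toAdd (Φ g)) := by
      intro g
      obtain ⟨z, hz⟩ : ∃ z : Fin r → ℤ, z = Multiplicative.toAdd (Φ g) := ⟨_, rfl⟩
      have h8 := hW8 g
      rw [← hz] at h8 ⊢
      have e1 : (8 : ℤ) • ic c (D.mapDomain
          (pimG (φ := fun g : G => (g : K ≃ₐ[ℂ] K)) hmul hpsG (g : G))) =
          (8 : ℤ) • ic c D + (4 : ℤ) • (∑ i, z i • ic c (D1 i)) +
          β ((∑ i, ∑ j, (z i * z j) • (W i * W j)).mulVec (R D)) := by
        have e2 : (4 : ℤ) • (∑ i, z i • ic c (D1 i)) =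
            β ((4 : ℤ) • (∑ i, z i • W i).mulVec (R D)) := by
          rw [map_zsmul, Matrix.sum_mulVec, map_sum]
          congr 1
          exact Finset.sum_congr rfl fun i _ => by rw [Matrix.smul_mulVec, map_zsmul, hβR, hD1]
        rw [e2, hβR, hβR, hR, ← map_zsmul, ← map_zsmul, ← map_add, ← map_add]
        congr 1
        rw [← Matrix.smul_mulVec, h8, Matrix.add_mulVec, Matrix.add_mulVec, Matrix.smul_mulVec,
          Matrix.smul_mulVec, Matrix.one_mulVec]
      funext l
      have e2 := congrFun e1 l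
      have e3 := congrFun (hcl U a D hD (g : G)) l
      have e4 := congrFun (hcl0 U a D hD) l
      rw [cls_dv, Pi.smul_apply, smul_eq_mul] at e3 e4
      rw [Pi.add_apply, Pi.add_apply, Finset.sum_apply, hquad]
      have e5 : ∀ i, ((z i : ℚ) • cls y (fun P i => (c P i : ℚ)) (A i)) l =
          (1 / (2 * a)) * ((z i : ℚ) * ic c (D1 i) l) := fun i => by
        rw [Pi.smul_apply, smul_eq_mul,
          show cls y (fun P i => (c P i : ℚ)) (A i) l = _ from hAc i l]
        ring
      rw [Finset.sum_congr rfl fun i _ => e5 i, ← Finset.mul_sum]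
      have e6 : ((ic c (D.mapDomain
          (pimG (φ := fun g : G => (g : K ≃ₐ[ℂ] K)) hmul hpsG (g : G))) l : ℤ) : ℚ) * 8 =
          8 * (ic c D l : ℚ) + 4 * ∑ i, (z i : ℚ) * ic c (D1 i) l +
          ((β ((∑ i, ∑ j, (z i * z j) • (W i * W j)).mulVec (R D)) l : ℤ) : ℚ) := by
        rw [Pi.add_apply, Pi.add_apply, Pi.smul_apply, Pi.smul_apply, Pi.smul_apply,
          Finset.sum_apply, smul_eq_mul, smul_eq_mul, smul_eq_mul] at e2
        have e7 := congrArg (fun t : ℤ => (t : ℚ)) e2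
        beta_reduce at e7
        push_cast at e7
        rw [mul_comm, e7]
        congr 2
        congr 1
        exact Finset.sum_congr rfl fun i _ => by rw [Pi.smul_apply, smul_eq_mul]; push_cast; rfl
      have e8 : cls y (fun P i => (c P i : ℚ)) U l = (1 / a) * (ic c D l : ℚ) := by
        rw [e4]
        change cls y (cQ c) U l = _
        field_simp
      rw [e8]
      have e9 : cls y (cQ c) (fun Q => U (comap ((g : G) : K ≃ₐ[ℂ] K) Q)) l =
          (1 / (8 * a)) * (((ic c (D.mapDomain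
          (pimG (φ := fun g : G => (g : K ≃ₐ[ℂ] K)) hmul hpsG (g : G))) l : ℤ) : ℚ) * 8) := by
        rw [e3]
        field_simp
      rw [e9, e6]
      field_simp
      ring
    refine ⟨A, E, hAf, fun i j => ⟨hEf i j, ?_, fun g => ?_⟩, fun g => pull_iff.2 (hpull g),
      fun hUe z => ?_, fun i' hi' hUH z hz => ?_⟩
    · funext l
      rw [show cls y (fun P i => (c P i : ℚ)) (E i j) l = _ from hEc i j l,
        show cls y (fun P i => (c P i : ℚ)) (E j i) l = _ from hEc j i l, hβR, hβR, hD2, hD2, hWc]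
    · have h8a : 1 ≤ 8 * a := by omega
      refine (hfix (E i j) (8 * a) (D2 i j) h8a (fun P hP => ?_) (g : G)).2 ?_
      · rw [hE]
        push_cast
        field_simp
      · rw [hD2, Matrix.mulVec_mulVec, hWf]
    · -- the value is pseudo-effective
      obtain ⟨g, hg⟩ := hsur (Multiplicative.ofAdd z)
      obtain ⟨w, hw⟩ : ∃ w : Fin ρ → ℚ, w = ∑ i, (z i : ℚ) • cls y (fun P i => (c P i : ℚ)) (A i) :=
        ⟨_, rfl⟩
      obtain ⟨v, hv⟩ : ∃ v : Fin ρ → ℝ, v = fun l => ((quadCls y c E z l : ℚ) : ℝ) := ⟨_, rfl⟩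
      obtain ⟨u, hu⟩ : ∃ u : Fin ρ → ℝ, u = toR (cls y (cQ c) U) := ⟨_, rfl⟩
      rw [← hv]
      have key : ∀ m : ℕ, (1 / ((m : ℝ) + 1) * (1 / ((m : ℝ) + 1))) • u +
          (1 / ((m : ℝ) + 1)) • toR w + v ∈ closure (effSet y (cQ c)) := by
        intro m
        have e1 := hpull (g ^ (m + 1))
        have e2 : Multiplicative.toAdd (Φ (g ^ (m + 1))) = (m + 1 : ℤ) • z := by
          rw [map_pow, hg, toAdd_pow, toAdd_ofAdd]
          rw [← natCast_zsmul]
          push_cast
          rfl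
        rw [e2] at e1
        have e3 := subset_closure (eff_mem (c := cQ c)
          (eff_pull (hps _ ((g ^ (m + 1) : hSys.sub) : G).2) hUe))
        have e4 := clo_smul e3 (r := 1 / ((m : ℝ) + 1) * (1 / ((m : ℝ) + 1))) (by positivity)
        have e5 : (1 / ((m : ℝ) + 1) * (1 / ((m : ℝ) + 1))) • toR (cls y (cQ c) (fun Q =>
            U (comap (((g ^ (m + 1) : hSys.sub) : G) : K ≃ₐ[ℂ] K) Q))) =
            (1 / ((m : ℝ) + 1) * (1 / ((m : ℝ) + 1))) • u + (1 / ((m : ℝ) + 1)) • toR w + v := by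
          rw [e1]
          have hm : ((m : ℝ) + 1) ≠ 0 := by positivity
          funext l
          rw [hu, hv, hw]
          have e6 : quadCls y c E ((m + 1 : ℤ) • z) l = ((m : ℚ) + 1) ^ 2 * quadCls y c E z l := by
            unfold quadCls
            rw [Finset.sum_apply, Finset.sum_apply, Finset.mul_sum]
            refine Finset.sum_congr rfl fun i _ => ?_
            rw [Finset.sum_apply, Finset.sum_apply, Finset.mul_sum]
            refine Finset.sum_congr rfl fun j _ => ?_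
            rw [Pi.smul_apply, Pi.smul_apply, Pi.smul_apply, Pi.smul_apply, smul_eq_mul,
              smul_eq_mul, smul_eq_mul, smul_eq_mul]
            push_cast
            ring
          have e7 : (∑ i, (((m + 1 : ℤ) • z) i : ℚ) • cls y (fun P i => (c P i : ℚ)) (A i)) l =
              ((m : ℚ) + 1) * (∑ i, (z i : ℚ) • cls y (fun P i => (c P i : ℚ)) (A i)) l := by
            rw [Finset.sum_apply, Finset.sum_apply, Finset.mul_sum]
            refine Finset.sum_congr rfl fun i _ => ?_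
            rw [Pi.smul_apply, Pi.smul_apply, Pi.smul_apply, smul_eq_mul, smul_eq_mul, smul_eq_mul]
            push_cast
            ring
          have hto : ∀ (v : Fin ρ → ℚ) l, toR v l = ((v l : ℚ) : ℝ) := fun _ _ => rfl
          rw [Pi.smul_apply, Pi.add_apply, Pi.add_apply, Pi.smul_apply, Pi.smul_apply,
            smul_eq_mul, smul_eq_mul, smul_eq_mul, hto, hto, hto, Pi.add_apply, Pi.add_apply, e6,
            e7]
          have e10 : ((cls y (fun P i => (c P i : ℚ)) U l : ℚ) : ℝ) =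
              ((cls y (cQ c) U l : ℚ) : ℝ) := rfl
          push_cast
          rw [e10]
          field_simp
        rw [e5] at e4
        exact e4
      have hlim : Filter.Tendsto (fun m : ℕ => (1 / ((m : ℝ) + 1) * (1 / ((m : ℝ) + 1))) • u +
          (1 / ((m : ℝ) + 1)) • toR w + v) Filter.atTop (nhds (((0 : ℝ) * 0) • u +
          (0 : ℝ) • toR w + v)) :=
        (((tendsto_one_div_add_atTop_nhds_zero_nat.mul
          tendsto_one_div_add_atTop_nhds_zero_nat).smul_const u).add
          (tendsto_one_div_add_atTop_nhds_zero_nat.smul_const (toR w))).add tendsto_const_nhds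
      rw [mul_zero, zero_smul, zero_smul, zero_add, zero_add] at hlim
      exact isClosed_closure.mem_of_tendsto hlim (Filter.Eventually.of_forall key)
    · -- the value is not zero
      have hUe : Effective y U := by
        obtain ⟨H', hH', hH'P⟩ := exists_hyp hy hi'
        have e1 : ∀ Q, IsPrimeDivisor y Q → U Q = H' Q := fun Q hQ => by
          obtain ⟨l, hl⟩ := exists_centred hy Q
          rw [hUH Q l hQ hl, hH'P Q l hQ hl]
        exact ⟨fun Q hQ => by rw [e1 Q hQ]; exact hH'.1 Q hQ, hU⟩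
      obtain ⟨HF, hHF⟩ := hyfin hy hUe hUH
      have hx : R HF = x := hRx HF i' hi' fun P l hP hl => by rw [← hHF P hP, hUH P l hP hl]
      have e1 : R D = (a : ℤ) • x := by
        rw [← hx]
        refine hinj ?_
        beta_reduce
        rw [← hRB]
        have e2 : ∑ j, ((a : ℤ) • R HF) j • B j = (a : ℤ) • ∑ j, R HF j • B j := by
          rw [Finset.smul_sum]
          exact Finset.sum_congr rfl fun j _ => by rw [Pi.smul_apply, smul_assoc]
        rw [e2, ← hRB]
        funext l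
        have e3 := congrFun (hcl0 U a D hD) l
        have e4 : cls y (cQ c) U l = (ic c HF l : ℚ) := by
          rw [← cls_dv]
          exact congrFun (cls_congr fun P hP => hHF P hP) l
        rw [cls_dv, Pi.smul_apply, smul_eq_mul, e4] at e3
        rw [Pi.smul_apply, smul_eq_mul]
        exact_mod_cast e3
      refine hWx z ?_
      have e2 : β ((∑ i, ∑ j, (z i * z j) • (W i * W j)).mulVec (R D)) = 0 := by
        funext l
        have e3 := hquad z l
        rw [hz, Pi.zero_apply] at e3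
        have e4 : (1 / (8 * (a : ℚ))) ≠ 0 := by positivity
        have e5 := (mul_eq_zero.1 e3.symm).resolve_left e4
        rw [Pi.zero_apply]
        exact_mod_cast e5
      have e3 : (∑ i, ∑ j, (z i * z j) • (W i * W j)).mulVec (R D) = 0 := by
        refine hinj ?_
        beta_reduce
        rw [← hβ, e2]
        simp
      rw [e1, Matrix.mulVec_smul] at e3
      refine (smul_eq_zero.1 e3).resolve_left ?_
      exact_mod_cast (Nat.one_le_iff_ne_zero.1 ha)
  refine ⟨hSys.sub, r, Φ, C' * (C + 1) + C * (C' + 1), hSys.sub_normal, hSys.sub_fin, hsur,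
    fun g hg P Q hQ hPQ => ?_, fun g => ?_, hQuad, fun U hU g => ?_, fun g D hD hf hb => ?_,
    fun k U hU hUf hUi => ?_⟩
  · have hg' : Φ g⁻¹ = 1 := by rw [map_inv, hg, inv_one]
    have h1 := hker ((g⁻¹ : hSys.sub) : G) ((hk g⁻¹).1 hg') Q hQ
    have e1 : P = comap ((g : G) : K ≃ₐ[ℂ] K) Q := Place.ext (funext fun f => hPQ f)
    rw [Subgroup.coe_inv, Subgroup.coe_inv, Subgroup.coe_inv, inv_inv, ← e1] at h1
    exact h1
  · obtain ⟨D, hD1, hD2⟩ := dg_nat hy hn hn0 hi ((g : G) : K ≃ₐ[ℂ] K)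
    refine ⟨D, hD2, ?_, ?_⟩
    · have h1 := (hb g).1
      have h2 := hdl (g : G)
      rw [hD1] at h2
      have h3 := dg_pos hy hn hn0 hi ((g : G) : K ≃ₐ[ℂ] K)
      rw [hD1] at h3
      refine h1.trans ?_
      have h4 : nr (im (M (g : G))) + 1 ≤ (C + 1) * D := by nlinarith
      have h5 := mul_le_mul_of_nonneg_left h4 hC'.le
      have h6 : 0 ≤ C * (C' + 1) * D := by positivity
      nlinarith
    · have h1 := (hb g).2
      have h2 := hdu (g : G)
      rw [hD1] at h2
      obtain ⟨s, hs⟩ : ∃ s : ℝ, s = (∑ i, |((Multiplicative.toAdd (Φ g) i : ℤ) : ℝ)|) ^ 2 :=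
        ⟨_, rfl⟩
      have hs0 : 0 ≤ s := by rw [hs]; exact sq_nonneg _
      rw [← hs] at h1 ⊢
      have h3 : nr (im (M (g : G))) + 1 ≤ (C' + 1) * (s + 1) := by nlinarith
      have h4 := mul_le_mul_of_nonneg_left h3 hC.le
      have h5 : 0 ≤ C' * (C + 1) * (s + 1) := by positivity
      nlinarith
  · obtain ⟨hU0, hUB⟩ := hS U hU
    obtain ⟨a, D, ha, hD⟩ := clear_denom hU0
    rw [hfix U a D ha hD (g : G)]
    obtain ⟨B', hB'⟩ := hbdd U a D ha hD hUB
    exact fix_of_bdd hSys g.2 fun m => hB' _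
  · exact big_fixed hy hn hc (φ := fun g : hSys.sub => ((g : G) : K ≃ₐ[ℂ] K)) (fun _ _ => rfl)
      (fun g => hpsG (g : G)) hQuad hD hf hb
  · choose a D ha hD using fun j => clear_denom (hU j)
    have hli : LinearIndependent ℤ fun j => R (D j) := by
      rw [Fintype.linearIndependent_iff] at hUi ⊢
      intro w hw
      have h1 : ∑ j, w j • ic c (D j) = 0 := by
        have h2 : ∑ j, w j • ic c (D j) = ∑ l, (∑ j, w j • R (D j)) l • B l := by
          simp only [Finset.sum_apply, Finset.sum_smul, Pi.smul_apply, smul_eq_mul, mul_smul]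
          rw [Finset.sum_comm]
          refine Finset.sum_congr rfl fun j _ => ?_
          rw [hRB, Finset.smul_sum]
        rw [h2, hw]
        simp
      have h3 : ∑ j, ((w j : ℚ) * a j) • cls y (fun P i => (c P i : ℚ)) (U j) = 0 := by
        funext l
        have h4 := congrFun h1 l
        rw [Finset.sum_apply] at h4 ⊢
        have h5 : ∀ j, (((w j : ℚ) * a j) • cls y (fun P i => (c P i : ℚ)) (U j)) l =
            (((w j • ic c (D j)) l : ℤ) : ℚ) := by
          intro j
          have h6 := congrFun (hcl0 (U j) (a j) (D j) (hD j)) l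
          rw [cls_dv] at h6
          rw [Pi.smul_apply, Pi.smul_apply, smul_eq_mul, smul_eq_mul, Int.cast_mul, h6,
            Pi.smul_apply, smul_eq_mul, mul_assoc]
          rfl
        rw [Finset.sum_congr rfl fun j _ => h5 j, ← Int.cast_sum, h4]
        rfl
      intro j
      have h6 := hUi _ h3 j
      have h7 : (a j : ℚ) ≠ 0 := by
        have h8 : (0 : ℚ) < a j := by exact_mod_cast ha j
        exact h8.ne'
      exact_mod_cast (mul_eq_zero.1 h6).resolve_right h7
    have h1 := rank_le hSys hsur hk hli fun g hg j =>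
      (hfix (U j) (a j) (D j) (ha j) (hD j) g).1 (hUf j ⟨g, hg⟩)
    exact h1.imp id fun h => by omega

end

end Run7.h913.SH
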