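import Pool.Agent.Run7.h913.SH.Defs
import Pool.Agent.Y172.Loc3

/-!
Nef divisors are in the closed movable cone.
-/

set_option autoImplicit false
set_option linter.unusedSectionVars false

open FF Pool.Agent.W602.GT Pool.Agent.Y172 Pool.Agent.R887 Pool.Agent.N110 Pool.Agent.N110.DV

namespace Run7.h913.SH

variable {K : Type} [Field K] [Algebra ℂ K] {N n : ℕ} {y : Fin (N + 1) → K}

theorem through_self {P : Place ℂ K} : Through y P P := by
  rintro f ⟨j, hj, a, ha, b, hb, hb0, hPb, hab⟩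
  by_cases hf0 : f = 0
  · exact Or.inl hf0
  right
  have ha0 : a ≠ 0 := by
    rw [← hab]
    exact mul_ne_zero hf0 hb0
  have h1 := (hj.reg a ha).resolve_left ha0
  rw [← hab, P.ord_mul hf0 hb0, hPb, add_zero] at h1
  exact h1

theorem mov_of_nef (hy : NormalModel y) (hn : Algebra.trdeg ℂ K = n) {L : Place ℂ K → ℚ}
    (h : NefD y n L) : MovD y L := by
  intro i hi q hq
  obtain ⟨m, hm, h1⟩ := h i hi q hq
  refine ⟨m, hm, fun P₀ hP₀ => ?_⟩
  obtain ⟨g, hg, h2, h3⟩ := h1 P₀ (hP₀.divisorial hy hn)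
  exact ⟨g, hg, h2, fun l hl => h3 P₀ l hP₀ through_self hl⟩

end Run7.h913.SH
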