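import Pool.Agent.Run7.h913.SH.Thm
import Pool.Agent.Run7.h913.SH.Nef
import Pool.Agent.N110.DV.Main

/-!
The stabiliser of the class of a divisor.
-/

set_option autoImplicit false
set_option linter.overlappingInstances false
set_option linter.unusedSectionVars false

open FF Pool.Agent.W602.GT Pool.Agent.Y172 Pool.Agent.R887
open Pool.Agent.N110 Pool.Agent.N110.DV Run7.h528.NR

namespace Run7.h913.SH

variable {K : Type} [Field K] [Algebra ℂ K] {N n : ℕ} {y : Fin (N + 1) → K}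

theorem stab_main (hy : NormalModel y) (hn : Algebra.trdeg ℂ K = n) (hn1 : 1 < n) {ρ : ℕ}
    {c : Place ℂ K → Fin ρ → ℤ} (hc : NumClasses y c) {L : Place ℂ K → ℚ}
    (hL : {P | IsPrimeDivisor y P ∧ L P ≠ 0}.Finite) (G : Subgroup (K ≃ₐ[ℂ] K))
    (hG : (TerminalPair y n 0 ∧ LogNef y n 0) ∨ ∀ g ∈ G, PseudoAut g y)
    (hcl : ∀ g ∈ G, ClassLe g y L) :
    CodimTwoD y n L ∨ MordellWeilOver y n c (MovFace y n L) G := by
  have hiso : ∀ g ∈ G, PseudoAut g y := by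
    rcases hG with ⟨hT, hnef⟩ | h
    · have hz : ∀ P : Place ℂ K, IsPrimeDivisor y P → (0 : ℚ) ≤ (0 : Place ℂ K → ℚ) P :=
        fun _ _ => le_rfl
      exact fun g _ => pseudo_of_terminal hy hn hz hT hnef (pullLe_terminal hy hn hT g)
        (pullLe_terminal hy hn hT g.symm)
    · exact h
  rcases st_D hy hn hn1 hc hL G hiso hcl with h2 | h
  · refine Or.inl ⟨h2, iitaka_lt hy hn (Nat.sub_le _ _) h2, fun h => ⟨n - 2, h, ?_⟩⟩
    rwa [show n - 2 + 1 = n - 1 by omega]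
  · exact Or.inr h

/-- a smaller set of divisors -/
theorem MordellWeilOver.mono {ρ : ℕ} {c : Place ℂ K → Fin ρ → ℤ} {S S' : Set (Place ℂ K → ℚ)}
    {G : Subgroup (K ≃ₐ[ℂ] K)} (h : MordellWeilOver y n c S G) (hS : S' ⊆ S) :
    MordellWeilOver y n c S' G := by
  obtain ⟨G₀, r, Φ, C, h1, h2, h3, h4, h5, h6, h7, h8⟩ := h
  exact ⟨G₀, r, Φ, C, h1, h2, h3, h4, h5, h6, fun U hU => h7 U (hS hU), h8⟩

theorem nefFace_le (hy : NormalModel y) (hn : Algebra.trdeg ℂ K = n) {L : Place ℂ K → ℚ} :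
    NefFace y n L ⊆ MovFace y n L := fun _ hU => ⟨hU.1, mov_of_nef hy hn hU.2.1, hU.2.2⟩

end Run7.h913.SH
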