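import Pool.Agent.Run7.h913.SH.Main
import Pool.Agent.Run7.h528.NR.Term

/-!
The structure theorem for groups of isomorphisms in codimension one which preserve a divisor `L` of
numerical dimension at least `n - 1`: the classes of the movable divisors `U` with `L + U` not big are
fixed by a subgroup of finite index, and the rank is at most the codimension of the space of fixed
classes, minus one.
-/

set_option autoImplicit false
set_option linter.overlappingInstances false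
set_option linter.unusedSectionVars false

open FF Module MvPolynomial Pool.Agent.W602.GT Pool.Agent.W603.LV
open Pool.Agent.Y172 Pool.Agent.Y191 Pool.Agent.R887
open Pool.Agent.N110 Pool.Agent.N110.RK Pool.Agent.N110.DV Run7.h528.NR

namespace Run7.h913.SH

open Run7.h913.ST Pool.Agent.N110.PA Pool.Agent.N110.NV Pool.Agent.N492.PA

section

variable {K : Type} [Field K] [Algebra ℂ K] {N n : ℕ} {y : Fin (N + 1) → K}

theorem notBig_of {c : Place ℂ K → ℤ} {L : Place ℂ K → ℚ} (h : NuLt y n L n) :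
    NotBig y n c (sh c L) := by
  intro A hA ε hε
  obtain ⟨t, ht, m₀, h1⟩ := h A hA ε hε
  exact ⟨t, ht, m₀, fun m b hm hb u hu g hg hg0 =>
    h1 m b hm hb u hu g (fun i => lsp_iff.1 (hg i)) hg0⟩

/-- the sections are pulled back -/
theorem wpulls_ofK (hy : NormalModel y) {Δ : Place ℂ K → ℚ} {φ : K ≃ₐ[ℂ] K}
    (hφ : PullLe φ y n Δ) {x : Fin n → K} {E : Fin n → Derivation ℂ K K}
    (hE : ∀ i j, E i (x j) = if i = j then 1 else 0) (hfr : IsFrame E)
    {c : Place ℂ K → ℤ} (hc : IsDisc y E c) : WPulls y c Δ φ := by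
  intro A hA
  obtain ⟨J, hJ0, hJ⟩ := exists_jac φ hE hfr
  obtain ⟨B, hB, h1⟩ := pull_sections hy hA hφ hE hfr hc hJ
  exact ⟨B, hB, fun m hm => ⟨J ^ m, pow_ne_zero _ hJ0, fun b _ g hg => h1 m b hm g hg⟩⟩

/-- the classes are bounded -/
theorem bd_of (hy : NormalModel y) {d : ℕ} (hn : Algebra.trdeg ℂ K = ((d + 2 : ℕ) : Cardinal))
    {i : Fin (N + 1)} (hi : y i ≠ 0) {ρ : ℕ} {cc : Place ℂ K → Fin ρ → ℤ} (hcc : NumClasses y cc)
    {E : Fin (d + 2) → Derivation ℂ K K} (hfr : IsFrame E) {c : Place ℂ K → ℤ}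
    (hcfin : {P | IsPrimeDivisor y P ∧ c P ≠ 0}.Finite) (hc' : IsDisc y E c)
    {Δ U : Place ℂ K → ℚ} (hΔ : {P | IsPrimeDivisor y P ∧ Δ P ≠ 0}.Finite)
    (G : Subgroup (K ≃ₐ[ℂ] K)) (hps : ∀ g ∈ G, PseudoAut g y) (hP : ∀ g ∈ G, WPulls y c Δ g)
    (hnum : ¬ NumDimLt y (d + 2) Δ (d + 1)) (hU : {P | IsPrimeDivisor y P ∧ U P ≠ 0}.Finite)
    (hUm : MovD y U) (hNB : NotBig y (d + 2) c (Δ + U)) :
    ∃ B : ℝ, ∀ v : G, ‖toR (cls y (cQ cc) (fun Q => U (comap (v : K ≃ₐ[ℂ] K) Q)))‖ ≤ B := by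
  obtain ⟨Hy, hHe, hHP⟩ := exists_hyp hy hi
  obtain ⟨C, hC, hdeg⟩ := deg_bd hy hn hi hfr hcfin hc' hΔ (G := G)
    (φ := fun g => (g : K ≃ₐ[ℂ] K)) rfl (fun _ _ => rfl) (fun g => hps g g.2)
    (fun g => hP g g.2) hnum hU hUm hNB hHP
  exact cls_bd hy hcc hi hHe hHP (φ := fun g : G => (g : K ≃ₐ[ℂ] K)) (fun g => hps g g.2) hU hUm hC
    hdeg

/-- **Groups which preserve the class of a divisor `L`.** -/
theorem st_D (hy : NormalModel y) (hn : Algebra.trdeg ℂ K = n) (hn1 : 1 < n) {ρ : ℕ}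
    {c : Place ℂ K → Fin ρ → ℤ} (hc : NumClasses y c) {L : Place ℂ K → ℚ}
    (hL : {P | IsPrimeDivisor y P ∧ L P ≠ 0}.Finite) (G : Subgroup (K ≃ₐ[ℂ] K))
    (hps : ∀ g ∈ G, PseudoAut g y) (hcl : ∀ g ∈ G, ClassLe g y L) :
    NuLt y n L (n - 1) ∨ MordellWeilOver y n c
      {U | {P | IsPrimeDivisor y P ∧ U P ≠ 0}.Finite ∧ MovD y U ∧ NuLt y n (L + U) n} G := by
  by_cases h : NuLt y n L (n - 1)
  · exact Or.inl h
  · right
    obtain ⟨i, hi⟩ := hy.ne
    refine st_main hy hn (by omega) hi hc G hps (quadr_ofD hy hn (by omega) hi hL G hps hcl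
      fun _ => h) ?_
    rintro U ⟨hU, hUm, hNB⟩
    refine ⟨hU, ?_⟩
    obtain ⟨d, rfl⟩ : ∃ d, n = d + 2 := ⟨n - 2, by omega⟩
    obtain ⟨x, E, hx, hE⟩ := exists_crd hn (k := ℂ) (K := K)
    have hfr : IsFrame E := fun F => ⟨fun j => F (x j),
      (Pool.Agent.W73.PG.PULL.expand x hx E hE F).symm⟩
    obtain ⟨c0, hcfin, hc0⟩ := exists_ordc hy hn hx hE
    have hc' : IsDisc y E c0 := hc0
    refine bd_of hy hn hi hc hfr hcfin hc' (Δ := sh c0 L) (sh_fin hcfin hL) G hps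
      (fun g hg => wpulls_of (hps g hg) (hcl g hg)) ?_ hU hUm ?_
    · intro h1
      refine h ?_
      rw [show d + 2 - 1 = d + 1 by omega]
      exact (nuLt_iff hE hfr hc').1 h1
    · have e1 : sh c0 L + U = sh c0 (L + U) := by
        funext P
        rw [Pi.add_apply]
        unfold sh
        rw [Pi.add_apply]
        ring
      rw [e1]
      exact notBig_of hNB

/-- **Groups which preserve `K_X + Δ`.** -/
theorem st_K (hy : NormalModel y) (hn : Algebra.trdeg ℂ K = n) (hn1 : 1 < n) {ρ : ℕ}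
    {c : Place ℂ K → Fin ρ → ℤ} (hc : NumClasses y c) {Δ : Place ℂ K → ℚ}
    (hΔ : {P | IsPrimeDivisor y P ∧ Δ P ≠ 0}.Finite) (G : Subgroup (K ≃ₐ[ℂ] K))
    (hps : ∀ g ∈ G, PseudoAut g y) (hP : ∀ g ∈ G, PullLe g y n Δ) :
    NumDimLt y n Δ (n - 1) ∨ MordellWeilOver y n c
      {U | {P | IsPrimeDivisor y P ∧ U P ≠ 0}.Finite ∧ MovD y U ∧ NumDimLt y n (Δ + U) n} G := by
  by_cases h : NumDimLt y n Δ (n - 1)
  · exact Or.inl h
  · right
    obtain ⟨i, hi⟩ := hy.ne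
    refine st_main hy hn (by omega) hi hc G hps (quadr_of hy hn (by omega) hi hΔ G hP
      fun _ => h) ?_
    rintro U ⟨hU, hUm, hNB⟩
    refine ⟨hU, ?_⟩
    obtain ⟨d, rfl⟩ : ∃ d, n = d + 2 := ⟨n - 2, by omega⟩
    obtain ⟨x, E, hx, hE⟩ := exists_crd hn (k := ℂ) (K := K)
    have hfr : IsFrame E := fun F => ⟨fun j => F (x j),
      (Pool.Agent.W73.PG.PULL.expand x hx E hE F).symm⟩
    obtain ⟨c0, hcfin, hc0⟩ := exists_ordc hy hn hx hE
    have hc' : IsDisc y E c0 := hc0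
    refine bd_of hy hn hi hc hfr hcfin hc' hΔ G hps
      (fun g hg => wpulls_ofK hy (hP g hg) hE hfr hc') ?_ hU hUm ?_
    · intro h1
      refine h ?_
      rw [show d + 2 - 1 = d + 1 by omega]
      exact h1
    · have e1 : sh c0 (fun P => (Δ + U) P + c0 P) = Δ + U := by
        funext P
        unfold sh
        ring
      rw [← e1]
      rw [← e1] at hNB
      exact notBig_of ((nuLt_iff hE hfr hc').1 hNB)

end

end Run7.h913.SH
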